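import Mathlib

set_option autoImplicit false

namespace Helper383.CovAV

open Finset

/-- number of `t`-sets containing a given set `B` -/
theorem card_super {n t : ℕ} (B : Finset (Fin n)) (hB : B.card ≤ t) :
    ((powersetCard t (univ : Finset (Fin n))).filter (fun T => B ⊆ T)).card
      = (n - B.card).choose (t - B.card) := by
  have h1 : ((powersetCard t (univ : Finset (Fin n))).filter (fun T => B ⊆ T)).card
      = (powersetCard (t - B.card) (univ \ B)).card := by
    refine Finset.card_nbij' (fun T => T \ B) (fun U => U ∪ B) ?_ ?_ ?_ ?_
    · intro T hT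
      simp only [Finset.coe_filter, Finset.mem_powersetCard, Set.mem_ofPred_eq] at hT
      simp only [Finset.mem_coe, Finset.mem_powersetCard]
      refine ⟨Finset.sdiff_subset_sdiff (Finset.subset_univ _) (le_refl _), ?_⟩
      rw [Finset.card_sdiff_of_subset hT.2, hT.1.2]
    · intro U hU
      simp only [Finset.mem_coe, Finset.mem_powersetCard] at hU
      simp only [Finset.coe_filter, Finset.mem_powersetCard, Set.mem_ofPred_eq]
      refine ⟨⟨Finset.subset_univ _, ?_⟩, Finset.subset_union_right⟩
      rw [Finset.card_union_of_disjoint, hU.2]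
      · omega
      · rw [Finset.disjoint_left]
        intro a ha
        have := hU.1 ha
        simp at this
        exact this
    · intro T hT
      simp only [Finset.coe_filter, Finset.mem_powersetCard, Set.mem_ofPred_eq] at hT
      exact Finset.sdiff_union_of_subset hT.2
    · intro U hU
      simp only [Finset.mem_coe, Finset.mem_powersetCard] at hU
      ext a
      simp only [Finset.mem_sdiff, Finset.mem_union]
      constructor
      · rintro ⟨h1 | h1, h2⟩
        · exact h1
        · exact absurd h1 h2
      · intro h1
        refine ⟨Or.inl h1, ?_⟩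
        have := hU.1 h1
        simp at this
        exact this
  rw [h1, Finset.card_powersetCard, Finset.card_sdiff_of_subset (Finset.subset_univ _),
    Finset.card_univ, Fintype.card_fin]

/-- averaging lower bound for the shadow of a covering family -/
theorem averaging {n r s t : ℕ} (hrs : r ≤ s) (hst : s ≤ t) (htn : t ≤ n)
    (A : Finset (Finset (Fin n))) (hA : ∀ T : Finset (Fin n), T.card = t → ∃ S ∈ A, S.card = s ∧ S ⊆ T) :
    n.choose r * s.choose r ≤
      ((powersetCard r (univ : Finset (Fin n))).filter (fun B => ∃ S ∈ A, B ⊆ S)).card * t.choose r := by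
  classical
  set F := (powersetCard r (univ : Finset (Fin n))).filter (fun B => ∃ S ∈ A, B ⊆ S) with hF
  set P := powersetCard t (univ : Finset (Fin n)) with hP
  -- double count
  have hdc : ∑ T ∈ P, (F.filter (fun B => B ⊆ T)).card = ∑ B ∈ F, (P.filter (fun T => B ⊆ T)).card :=
    (Finset.sum_card_bipartiteAbove_eq_sum_card_bipartiteBelow (s := F) (t := P)
      (r := fun (B T : Finset (Fin n)) => B ⊆ T)).symm
  have h1 : ∀ T ∈ P, s.choose r ≤ (F.filter (fun B => B ⊆ T)).card := by
    intro T hT
    simp only [hP, Finset.mem_powersetCard] at hT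
    obtain ⟨S, hS, hSc, hST⟩ := hA T hT.2
    have : powersetCard r S ⊆ F.filter (fun B => B ⊆ T) := by
      intro B hB
      rw [Finset.mem_powersetCard] at hB
      simp only [hF, Finset.mem_filter, Finset.mem_powersetCard]
      exact ⟨⟨⟨Finset.subset_univ _, hB.2⟩, S, hS, hB.1⟩, hB.1.trans hST⟩
    calc s.choose r = (powersetCard r S).card := by rw [Finset.card_powersetCard, hSc]
      _ ≤ _ := Finset.card_le_card this
  have h2 : ∀ B ∈ F, (P.filter (fun T => B ⊆ T)).card = (n - r).choose (t - r) := by
    intro B hB
    simp only [hF, Finset.mem_filter, Finset.mem_powersetCard] at hB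
    have hBc := hB.1.2
    have := card_super (n := n) (t := t) B (by omega)
    rw [hBc] at this
    exact this
  have h3 : n.choose t * s.choose r ≤ F.card * (n - r).choose (t - r) := by
    calc n.choose t * s.choose r = ∑ T ∈ P, s.choose r := by
          rw [Finset.sum_const, smul_eq_mul, hP, Finset.card_powersetCard, Finset.card_univ,
            Fintype.card_fin]
      _ ≤ ∑ T ∈ P, (F.filter (fun B => B ⊆ T)).card := Finset.sum_le_sum h1
      _ = ∑ B ∈ F, (P.filter (fun T => B ⊆ T)).card := hdc
      _ = ∑ B ∈ F, (n - r).choose (t - r) := Finset.sum_congr rfl h2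
      _ = F.card * (n - r).choose (t - r) := by rw [Finset.sum_const, smul_eq_mul]
  have h4 : n.choose t * t.choose r = n.choose r * (n - r).choose (t - r) :=
    Nat.choose_mul (by omega)
  have hpos : 0 < (n - r).choose (t - r) := Nat.choose_pos (by omega)
  refine Nat.le_of_mul_le_mul_right ?_ hpos
  calc n.choose r * s.choose r * (n - r).choose (t - r)
      = (n.choose r * (n - r).choose (t - r)) * s.choose r := by ring
    _ = (n.choose t * t.choose r) * s.choose r := by rw [h4]
    _ = (n.choose t * s.choose r) * t.choose r := by ring
    _ ≤ (F.card * (n - r).choose (t - r)) * t.choose r := Nat.mul_le_mul_right _ h3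
    _ = F.card * t.choose r * (n - r).choose (t - r) := by ring

end Helper383.CovAV
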