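import Mathlib

set_option autoImplicit false

namespace Helper383.CovK1

open Finset

theorem turan_disjoint_aux0 {n k : ℕ} (hk : 1 ≤ k) (G : SimpleGraph (Fin n)) [DecidableRel G.Adj]
    (h : G.CliqueFree (k + 1)) : 2 * k * G.edgeFinset.card ≤ (k - 1) * n ^ 2 := by
  have h1 : G.edgeFinset.card ≤ (SimpleGraph.turanGraph n k).edgeFinset.card :=
    (SimpleGraph.isTuranMaximal_turanGraph (n := n) hk).2 h
  calc 2 * k * G.edgeFinset.card ≤ 2 * k * (SimpleGraph.turanGraph n k).edgeFinset.card :=
        Nat.mul_le_mul_left _ h1
    _ ≤ (k - 1) * n ^ 2 := SimpleGraph.mul_card_edgeFinset_turanGraph_le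

/-- Turan's theorem for graphs without `m + 1` pairwise disjoint `(k+1)`-cliques, with a linear error -/
theorem turan_disjoint {n k : ℕ} (hk : 1 ≤ k) (m : ℕ) (G : SimpleGraph (Fin n)) [DecidableRel G.Adj]
    (h : ∀ Q : Fin (m + 1) → Finset (Fin n), (∀ i, G.IsNClique (k + 1) (Q i)) →
      ∃ i j, i ≠ j ∧ ¬ Disjoint (Q i) (Q j)) :
    2 * k * G.edgeFinset.card ≤ (k - 1) * n ^ 2 + 2 * k * (m * (k + 1) * n) := by
  classical
  induction m generalizing G with
  | zero =>
    have hcf : G.CliqueFree (k + 1) := by
      intro Q hQ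
      obtain ⟨i, j, hij, -⟩ := h (fun _ => Q) (fun _ => hQ)
      exact hij (by omega)
    have := turan_disjoint_aux0 hk G hcf
    omega
  | succ m ih =>
    by_cases hcf : G.CliqueFree (k + 1)
    · have := turan_disjoint_aux0 hk G hcf
      omega
    · unfold SimpleGraph.CliqueFree at hcf
      push Not at hcf
      obtain ⟨Q0, hQ0⟩ := hcf
      let G' : SimpleGraph (Fin n) :=
        { Adj := fun x y => G.Adj x y ∧ x ∉ Q0 ∧ y ∉ Q0
          symm := ⟨fun x y hxy => ⟨hxy.1.symm, hxy.2.2, hxy.2.1⟩⟩
          loopless := ⟨fun x hx => G.loopless.irrefl x hx.1⟩ }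
      have hle : G' ≤ G := fun x y hxy => hxy.1
      have hdis : ∀ Q, G'.IsNClique (k + 1) Q → Disjoint Q0 Q := by
        intro Q hQ
        rw [Finset.disjoint_left]
        intro x hx0 hx
        have hc : 1 < Q.card := by rw [hQ.card_eq]; omega
        obtain ⟨y, hy, hyx⟩ := Finset.exists_mem_ne hc x
        have hadj : G'.Adj x y := hQ.isClique hx hy hyx.symm
        exact hadj.2.1 hx0
      have hG' : ∀ Q : Fin (m + 1) → Finset (Fin n), (∀ i, G'.IsNClique (k + 1) (Q i)) →
          ∃ i j, i ≠ j ∧ ¬ Disjoint (Q i) (Q j) := by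
        intro Q hQ
        obtain ⟨i, j, hij, hnd⟩ := h (Fin.cons Q0 Q) (by
          intro i
          refine Fin.cases ?_ (fun i => ?_) i
          · simpa using hQ0
          · simpa using (hQ i).mono hle)
        revert hij hnd
        refine Fin.cases ?_ (fun i => ?_) i
        · refine Fin.cases ?_ (fun j => ?_) j
          · intro hij; exact absurd rfl hij
          · intro _ hnd
            simp only [Fin.cons_zero, Fin.cons_succ] at hnd
            exact absurd (hdis _ (hQ j)) hnd
        · refine Fin.cases ?_ (fun j => ?_) j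
          · intro _ hnd
            simp only [Fin.cons_zero, Fin.cons_succ] at hnd
            exact absurd (hdis _ (hQ i)).symm hnd
          · intro hij hnd
            simp only [Fin.cons_succ] at hnd
            exact ⟨i, j, fun e => hij (by rw [e]), hnd⟩
      have hih := ih G' hG'
      have hsub : G.edgeFinset ⊆ G'.edgeFinset ∪
          Q0.biUnion (fun x => Finset.univ.image (fun y => s(x, y))) := by
        intro e he
        induction e using Sym2.ind with
        | _ x y =>
          rw [SimpleGraph.mem_edgeFinset, SimpleGraph.mem_edgeSet] at he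
          rw [Finset.mem_union]
          by_cases hx : x ∈ Q0
          · right
            rw [Finset.mem_biUnion]
            exact ⟨x, hx, Finset.mem_image.mpr ⟨y, Finset.mem_univ _, rfl⟩⟩
          · by_cases hy : y ∈ Q0
            · right
              rw [Finset.mem_biUnion]
              exact ⟨y, hy, Finset.mem_image.mpr ⟨x, Finset.mem_univ _, Sym2.eq_swap⟩⟩
            · left
              rw [SimpleGraph.mem_edgeFinset, SimpleGraph.mem_edgeSet]
              exact ⟨he, hx, hy⟩
      have hcard : G.edgeFinset.card ≤ G'.edgeFinset.card + (k + 1) * n := by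
        refine (Finset.card_le_card hsub).trans ((Finset.card_union_le _ _).trans ?_)
        refine Nat.add_le_add_left ?_ _
        calc (Q0.biUnion (fun x => Finset.univ.image (fun y => s(x, y)))).card
            ≤ ∑ x ∈ Q0, (Finset.univ.image (fun y => s(x, y))).card := Finset.card_biUnion_le
          _ ≤ ∑ _x ∈ Q0, n := by
            apply Finset.sum_le_sum
            intro x _
            refine Finset.card_image_le.trans ?_
            simp
          _ = (k + 1) * n := by rw [Finset.sum_const, hQ0.card_eq, smul_eq_mul]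
      calc 2 * k * G.edgeFinset.card ≤ 2 * k * (G'.edgeFinset.card + (k + 1) * n) :=
            Nat.mul_le_mul_left _ hcard
        _ = 2 * k * G'.edgeFinset.card + 2 * k * ((k + 1) * n) := by ring
        _ ≤ (k - 1) * n ^ 2 + 2 * k * (m * (k + 1) * n) + 2 * k * ((k + 1) * n) :=
            Nat.add_le_add_right hih _
        _ = (k - 1) * n ^ 2 + 2 * k * ((m + 1) * (k + 1) * n) := by ring

end Helper383.CovK1
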