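import Mathlib

set_option autoImplicit false

namespace Helper383.CovK3

open Finset

/-- Erdos-Gallai: vertex-cover-critical graphs with covering number `p + 1` have at most `2 (p + 1)`
vertices. `E` is a family of 2-sets without a cover of size `≤ p`. -/
theorem critical_two {n p : ℕ} (E : Finset (Finset (Fin n))) (hE : ∀ e ∈ E, e.card = 2)
    (h : ∀ C : Finset (Fin n), C.card ≤ p → ∃ e ∈ E, Disjoint e C) :
    ∃ E' ⊆ E, (∀ C : Finset (Fin n), C.card ≤ p → ∃ e ∈ E', Disjoint e C) ∧
      (E'.biUnion id).card ≤ 2 * (p + 1) := by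
  classical
  obtain ⟨F, hF, hmin⟩ := (E.powerset.filter (fun F => ∀ C : Finset (Fin n), C.card ≤ p →
    ∃ e ∈ F, Disjoint e C)).exists_min_image Finset.card
      ⟨E, by rw [mem_filter, mem_powerset]; exact ⟨subset_rfl, h⟩⟩
  rw [mem_filter, mem_powerset] at hF
  obtain ⟨hFE, hFc⟩ := hF
  refine ⟨F, hFE, hFc, ?_⟩
  have hD : ∀ e ∈ F, ∃ D : Finset (Fin n), D.card ≤ p ∧ Disjoint e D ∧
      ∀ f ∈ F, Disjoint f D → f = e := by
    intro e he
    have hn : ¬ (∀ C : Finset (Fin n), C.card ≤ p → ∃ f ∈ F.erase e, Disjoint f C) := by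
      intro hh
      have h1 := hmin (F.erase e) (by
        rw [mem_filter, mem_powerset]
        exact ⟨(F.erase_subset e).trans hFE, hh⟩)
      have h2 := Finset.card_erase_lt_of_mem he
      omega
    push Not at hn
    obtain ⟨D, hDc, hDd⟩ := hn
    have hcov : ∀ f ∈ F, Disjoint f D → f = e := by
      intro f hf hd
      by_contra hne
      exact hDd f (mem_erase.2 ⟨hne, hf⟩) hd
    obtain ⟨f, hf, hfd⟩ := hFc D hDc
    have h3 := hcov f hf hfd
    subst h3
    exact ⟨D, hDc, hfd, hcov⟩
  have h2 : ∀ e ∈ F, ∀ x ∈ e, ∃ y, x ≠ y ∧ e = {x, y} := by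
    intro e he x hx
    obtain ⟨u, v, huv, rfl⟩ := Finset.card_eq_two.1 (hE e (hFE he))
    rw [mem_insert, mem_singleton] at hx
    rcases hx with rfl | rfl
    · exact ⟨v, huv, rfl⟩
    · exact ⟨u, huv.symm, Finset.pair_comm _ _⟩
  set V := F.biUnion id with hV
  let N : Finset (Fin n) → Finset (Fin n) := fun J =>
    (univ : Finset (Fin n)).filter (fun z => ∃ w ∈ J, w ≠ z ∧ ({w, z} : Finset (Fin n)) ∈ F)
  have memN : ∀ J z, z ∈ N J ↔ ∃ w ∈ J, w ≠ z ∧ ({w, z} : Finset (Fin n)) ∈ F := by
    intro J z
    simp [N]
  obtain ⟨e0, he0, -⟩ := hFc ∅ (by simp)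
  obtain ⟨D0, hD0c, hD0d, hD0⟩ := hD e0 he0
  obtain ⟨x0, hx0⟩ : e0.Nonempty := by
    rw [← Finset.card_pos, hE e0 (hFE he0)]
    norm_num
  set C0 := insert x0 D0 with hC0
  have hC0c : C0.card ≤ p + 1 := (Finset.card_insert_le _ _).trans (by omega)
  have hC0cov : ∀ f ∈ F, ¬ Disjoint f C0 := by
    intro f hf hd
    have h3 : Disjoint f D0 := hd.mono_right (Finset.subset_insert _ _)
    have h4 := hD0 f hf h3
    subst h4
    exact (Finset.disjoint_left.1 hd hx0) (Finset.mem_insert_self _ _)
  -- edges with both endpoints outside `C0` do not exist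
  have hind : ∀ w z, ({w, z} : Finset (Fin n)) ∈ F → w ∉ C0 → z ∈ C0 := by
    intro w z hwz hw
    by_contra hz
    apply hC0cov _ hwz
    rw [Finset.disjoint_left]
    intro t ht
    rw [mem_insert, mem_singleton] at ht
    rcases ht with rfl | rfl
    · exact hw
    · exact hz
  have claim : ∀ J : Finset (Fin n), J ⊆ V \ C0 → J.card ≤ (N J).card := by
    intro J
    induction J using Finset.strongInduction with
    | H J ih =>
      intro hJ
      by_contra hcon
      push Not at hcon
      have hNJ : ∀ z ∈ N J, z ∉ J := by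
        intro z hz hzJ
        obtain ⟨w, hw, _, hwz⟩ := (memN J z).1 hz
        exact (mem_sdiff.1 (hJ hzJ)).2 (hind w z hwz (mem_sdiff.1 (hJ hw)).2)
      -- the main step
      have main : ∀ x ∈ J, ∀ y, x ≠ y → ({x, y} : Finset (Fin n)) ∈ F →
          ∀ D : Finset (Fin n), D.card ≤ p → Disjoint ({x, y} : Finset (Fin n)) D →
          (∀ f ∈ F, Disjoint f D → f = {x, y}) → Disjoint D J := by
        intro x hx y hxy he D hDc hDd hDcov
        have hxD : x ∉ D := Finset.disjoint_left.1 hDd (by simp)
        have hyD : y ∉ D := Finset.disjoint_left.1 hDd (by simp)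
        have hyN : y ∈ N J := (memN J y).2 ⟨x, hx, hxy, he⟩
        by_contra hdj
        have hlt : J \ D ⊂ J := by
          rw [Finset.ssubset_iff_subset_ne]
          refine ⟨Finset.sdiff_subset, fun heq => hdj ?_⟩
          rw [Finset.disjoint_left]
          intro t htD htJ
          rw [← heq] at htJ
          exact (mem_sdiff.1 htJ).2 htD
        have h5 := ih _ hlt (Finset.sdiff_subset.trans hJ)
        -- the cover
        have h6 : p + 1 ≤ ((D \ J) ∪ (N J \ D)).card := by
          by_contra h7
          obtain ⟨f, hf, hfd⟩ := hFc ((D \ J) ∪ (N J \ D)) (by omega)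
          rw [Finset.disjoint_union_right] at hfd
          have hfJ : Disjoint f J := by
            rw [Finset.disjoint_left]
            intro w hwf hwJ
            obtain ⟨z, hwz, rfl⟩ := h2 f hf w hwf
            have hzN : z ∈ N J := (memN J z).2 ⟨w, hwJ, hwz, hf⟩
            have hzf : z ∈ ({w, z} : Finset (Fin n)) := by simp
            by_cases hzD : z ∈ D
            · exact Finset.disjoint_left.1 hfd.1 hzf (mem_sdiff.2 ⟨hzD, hNJ z hzN⟩)
            · exact Finset.disjoint_left.1 hfd.2 hzf (mem_sdiff.2 ⟨hzN, hzD⟩)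
          have hfD : Disjoint f D := by
            rw [Finset.disjoint_left]
            intro w hwf hwD
            exact Finset.disjoint_left.1 hfd.1 hwf
              (mem_sdiff.2 ⟨hwD, Finset.disjoint_left.1 hfJ hwf⟩)
          have h8 := hDcov f hf hfD
          subst h8
          exact Finset.disjoint_left.1 hfJ (by simp) hx
        have h7 : ((D \ J) ∪ (N J \ D)).card ≤ (D \ J).card + (N J \ D).card :=
          Finset.card_union_le _ _
        have h8 : (D \ J).card + (D ∩ J).card = D.card := Finset.card_sdiff_add_card_inter _ _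
        have h9 : (J \ D).card + (J ∩ D).card = J.card := Finset.card_sdiff_add_card_inter _ _
        rw [Finset.inter_comm J D] at h9
        -- `N J \ D ⊆ insert y (N J \ N (J \ D))`
        have h10 : N J \ D ⊆ insert y (N J \ N (J \ D)) := by
          intro z hz
          rw [mem_sdiff] at hz
          rw [mem_insert, mem_sdiff]
          by_cases hzN : z ∈ N (J \ D)
          · left
            obtain ⟨w, hw, hwz, hwzF⟩ := (memN _ z).1 hzN
            have h11 : ({w, z} : Finset (Fin n)) = {x, y} := by
              apply hDcov _ hwzF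
              rw [Finset.disjoint_left]
              intro t ht
              rw [mem_insert, mem_singleton] at ht
              rcases ht with rfl | rfl
              · exact (mem_sdiff.1 hw).2
              · exact hz.2
            have h12 : z ∈ ({x, y} : Finset (Fin n)) := by
              rw [← h11]
              simp
            rw [mem_insert, mem_singleton] at h12
            rcases h12 with rfl | rfl
            · exact absurd hx (hNJ _ hz.1)
            · rfl
          · exact Or.inr ⟨hz.1, hzN⟩
        have h11 : (N J \ D).card ≤ (N J \ N (J \ D)).card + 1 :=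
          (Finset.card_le_card h10).trans (Finset.card_insert_le _ _)
        have h12 : N (J \ D) ⊆ N J := by
          intro z hz
          obtain ⟨w, hw, hwz, hwzF⟩ := (memN _ z).1 hz
          exact (memN _ z).2 ⟨w, (mem_sdiff.1 hw).1, hwz, hwzF⟩
        have h13 : (N J \ N (J \ D)).card + (N (J \ D)).card = (N J).card :=
          Finset.card_sdiff_add_card_eq_card h12
        omega
      -- conclusion
      have hJne : J.Nonempty := by
        rw [← Finset.card_pos]
        omega
      obtain ⟨x, hx⟩ := hJne
      have hxV := (mem_sdiff.1 (hJ hx)).1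
      rw [hV, mem_biUnion] at hxV
      obtain ⟨e, he, hxe⟩ := hxV
      obtain ⟨y, hxy, rfl⟩ := h2 e he x hxe
      obtain ⟨D, hDc, hDd, hDcov⟩ := hD _ he
      have hdj := main x hx y hxy he D hDc hDd hDcov
      have hyD : y ∉ D := Finset.disjoint_left.1 hDd (by simp)
      have hyN : y ∈ N J := (memN J y).2 ⟨x, hx, hxy, he⟩
      have hsub : N (J.erase x) ⊆ (N J).erase y := by
        intro z hz
        obtain ⟨w, hw, hwz, hwzF⟩ := (memN _ z).1 hz
        rw [mem_erase] at hw
        rw [mem_erase]
        refine ⟨?_, (memN _ z).2 ⟨w, hw.2, hwz, hwzF⟩⟩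
        rintro rfl
        have h11 : ({w, z} : Finset (Fin n)) = {x, z} := by
          apply hDcov _ hwzF
          rw [Finset.disjoint_left]
          intro t ht
          rw [mem_insert, mem_singleton] at ht
          rcases ht with rfl | rfl
          · exact fun ht => Finset.disjoint_left.1 hdj ht hw.2
          · exact hyD
        have h12 : w ∈ ({x, z} : Finset (Fin n)) := by
          rw [← h11]
          simp
        rw [mem_insert, mem_singleton] at h12
        rcases h12 with h12 | h12
        · exact hw.1 h12
        · exact hwz h12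
      have h14 := ih _ (Finset.erase_ssubset hx) ((J.erase_subset x).trans hJ)
      have h15 := Finset.card_le_card hsub
      rw [Finset.card_erase_of_mem hyN] at h15
      rw [Finset.card_erase_of_mem hx] at h14
      have h16 : 0 < (N J).card := Finset.card_pos.2 ⟨y, hyN⟩
      omega
  have hI := claim (V \ C0) subset_rfl
  have hNI : N (V \ C0) ⊆ C0 := by
    intro z hz
    obtain ⟨w, hw, _, hwz⟩ := (memN _ z).1 hz
    exact hind w z hwz (mem_sdiff.1 hw).2
  have h17 := Finset.card_le_card hNI
  have h18 : V.card ≤ (V \ C0).card + C0.card := by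
    exact Finset.card_le_card_sdiff_add_card
  omega

end Helper383.CovK3
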