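import Mathlib

set_option autoImplicit false

namespace Helper383.CovK4

open Finset

theorem set_pairs_choose (a b : ℕ) (N : ℚ) :
    ((b + 1 : ℕ) : ℚ) * (1 / ((a + b).choose a : ℚ)) +
      (N - a - ((b + 1 : ℕ) : ℚ)) * (1 / ((a + (b + 1)).choose a : ℚ)) =
      N * (1 / ((a + (b + 1)).choose a : ℚ)) := by
  have h1 : (a + b + 1) * (a + b).choose a = (a + (b + 1)).choose a * (b + 1) := by
    have h := Nat.add_one_mul_choose_eq (a + b) b
    rw [Nat.choose_symm_add, Nat.choose_symm_add (a := a) (b := b + 1)]
    exact h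
  have h2 : ((a : ℚ) + b + 1) * ((a + b).choose a : ℚ) = ((a + (b + 1)).choose a : ℚ) * (b + 1) := by
    exact_mod_cast h1
  have h3 : 0 < (((a + b).choose a : ℕ) : ℚ) := by
    exact_mod_cast Nat.choose_pos (Nat.le_add_right a b)
  have h4 : 0 < (((a + (b + 1)).choose a : ℕ) : ℚ) := by
    exact_mod_cast Nat.choose_pos (Nat.le_add_right a (b + 1))
  push_cast
  field_simp
  linear_combination -h2

theorem set_pairs_aux {α ι : Type} [DecidableEq α] (n : ℕ) : ∀ (X : Finset α), X.card = n →
    ∀ (I : Finset ι) (A B : ι → Finset α),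
    (∀ i ∈ I, A i ⊆ X) → (∀ i ∈ I, B i ⊆ X) → (∀ i ∈ I, Disjoint (A i) (B i)) →
    (∀ i ∈ I, ∀ j ∈ I, i ≠ j → ¬ Disjoint (A i) (B j)) →
    ∑ i ∈ I, (1 : ℚ) / (((A i).card + (B i).card).choose (A i).card) ≤ 1 := by
  induction n with
  | zero =>
    intro X hX I A B hA hB h1 h2
    rw [Finset.card_eq_zero] at hX
    subst hX
    have hB' : ∀ i ∈ I, B i = ∅ := fun i hi => Finset.subset_empty.1 (hB i hi)
    have hA' : ∀ i ∈ I, A i = ∅ := fun i hi => Finset.subset_empty.1 (hA i hi)
    have hI : I.card ≤ 1 := by
      rw [Finset.card_le_one]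
      intro i hi j hj
      by_contra hne
      apply h2 i hi j hj hne
      rw [hB' j hj]
      exact Finset.disjoint_empty_right _
    have h3 : ∑ i ∈ I, (1 : ℚ) / (((A i).card + (B i).card).choose (A i).card) =
        ∑ i ∈ I, (1 : ℚ) := by
      refine Finset.sum_congr rfl fun i hi => ?_
      rw [hA' i hi, hB' i hi]
      simp
    rw [h3, Finset.sum_const, nsmul_eq_mul, mul_one]
    exact_mod_cast hI
  | succ n ih =>
    intro X hX I A B hA hB h1 h2
    by_cases hBe : ∃ i ∈ I, B i = ∅
    · obtain ⟨i, hi, hBi⟩ := hBe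
      have hI : I = {i} := by
        rw [Finset.eq_singleton_iff_unique_mem]
        refine ⟨hi, fun j hj => ?_⟩
        by_contra hne
        apply h2 j hj i hi hne
        rw [hBi]
        exact Finset.disjoint_empty_right _
      rw [hI, Finset.sum_singleton, hBi]
      simp
    · push Not at hBe
      have hstep : ∀ x ∈ X, ∑ i ∈ I.filter (fun i => x ∉ A i),
          (1 : ℚ) / (((A i).card + ((B i).erase x).card).choose (A i).card) ≤ 1 := by
        intro x hx
        refine ih (X.erase x) (by rw [Finset.card_erase_of_mem hx, hX]; rfl)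
          (I.filter (fun i => x ∉ A i)) A (fun i => (B i).erase x) ?_ ?_ ?_ ?_
        · intro i hi
          rw [Finset.mem_filter] at hi
          exact Finset.subset_erase.2 ⟨hA i hi.1, hi.2⟩
        · intro i hi
          rw [Finset.mem_filter] at hi
          exact Finset.erase_subset_erase x (hB i hi.1)
        · intro i hi
          rw [Finset.mem_filter] at hi
          exact (h1 i hi.1).mono_right (Finset.erase_subset _ _)
        · intro i hi j hj hne hd
          rw [Finset.mem_filter] at hi hj
          apply h2 i hi.1 j hj.1 hne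
          rw [Finset.disjoint_left] at hd ⊢
          intro y hy hyB
          refine hd hy (Finset.mem_erase.2 ⟨?_, hyB⟩)
          rintro rfl
          exact hi.2 hy
      have hsum : ∑ x ∈ X, ∑ i ∈ I.filter (fun i => x ∉ A i),
          (1 : ℚ) / (((A i).card + ((B i).erase x).card).choose (A i).card) ≤ X.card := by
        refine (Finset.sum_le_sum hstep).trans ?_
        rw [Finset.sum_const, nsmul_eq_mul, mul_one]
      have hswap : ∑ x ∈ X, ∑ i ∈ I.filter (fun i => x ∉ A i),
          (1 : ℚ) / (((A i).card + ((B i).erase x).card).choose (A i).card) =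
          ∑ i ∈ I, ∑ x ∈ X.filter (fun x => x ∉ A i),
          (1 : ℚ) / (((A i).card + ((B i).erase x).card).choose (A i).card) := by
        refine Finset.sum_comm' ?_
        intro x i
        simp only [Finset.mem_filter]
        tauto
      have hinner : ∀ i ∈ I, ∑ x ∈ X.filter (fun x => x ∉ A i),
          (1 : ℚ) / (((A i).card + ((B i).erase x).card).choose (A i).card) =
          (X.card : ℚ) * (1 / (((A i).card + (B i).card).choose (A i).card)) := by
        intro i hi
        have hsplit : X.filter (fun x => x ∉ A i) = B i ∪ (X \ (A i ∪ B i)) := by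
          ext x
          simp only [Finset.mem_filter, Finset.mem_union, Finset.mem_sdiff]
          constructor
          · rintro ⟨hx, hxA⟩
            by_cases hxB : x ∈ B i
            · exact Or.inl hxB
            · exact Or.inr ⟨hx, by tauto⟩
          · rintro (hx | ⟨hx, hx2⟩)
            · exact ⟨hB i hi hx, fun h => Finset.disjoint_left.1 (h1 i hi) h hx⟩
            · exact ⟨hx, fun h => hx2 (Or.inl h)⟩
        have hdisj : Disjoint (B i) (X \ (A i ∪ B i)) := by
          rw [Finset.disjoint_left]
          intro x hx hx2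
          rw [Finset.mem_sdiff, Finset.mem_union] at hx2
          exact hx2.2 (Or.inr hx)
        rw [hsplit, Finset.sum_union hdisj]
        obtain ⟨b, hb⟩ : ∃ b, (B i).card = b + 1 := by
          have : 0 < (B i).card := Finset.card_pos.2 (hBe i hi)
          exact ⟨(B i).card - 1, by omega⟩
        have e1 : ∑ x ∈ B i, (1 : ℚ) / (((A i).card + ((B i).erase x).card).choose (A i).card) =
            ((b + 1 : ℕ) : ℚ) * (1 / (((A i).card + b).choose (A i).card : ℚ)) := by
          rw [← hb, ← nsmul_eq_mul, ← Finset.sum_const]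
          refine Finset.sum_congr rfl fun x hx => ?_
          rw [Finset.card_erase_of_mem hx, hb, Nat.add_sub_cancel]
        have e2 : ∑ x ∈ X \ (A i ∪ B i),
            (1 : ℚ) / (((A i).card + ((B i).erase x).card).choose (A i).card) =
            ((X.card : ℚ) - (A i).card - ((b + 1 : ℕ) : ℚ)) *
              (1 / (((A i).card + (b + 1)).choose (A i).card : ℚ)) := by
          have hc : ((X \ (A i ∪ B i)).card : ℚ) = (X.card : ℚ) - (A i).card - ((b + 1 : ℕ) : ℚ) := by
            have hsub : A i ∪ B i ⊆ X := Finset.union_subset (hA i hi) (hB i hi)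
            have h5 := Finset.card_sdiff_add_card_eq_card hsub
            rw [Finset.card_union_of_disjoint (h1 i hi), hb] at h5
            rw [← h5]
            push_cast
            ring
          rw [← hc, ← nsmul_eq_mul, ← Finset.sum_const]
          refine Finset.sum_congr rfl fun x hx => ?_
          have hxB : x ∉ B i := by
            rw [Finset.mem_sdiff, Finset.mem_union] at hx
            exact fun h => hx.2 (Or.inr h)
          rw [Finset.erase_eq_of_notMem hxB, hb]
        rw [e1, e2, hb]
        exact set_pairs_choose (A i).card b (X.card : ℚ)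
      rw [hswap, Finset.sum_congr rfl hinner, ← Finset.mul_sum] at hsum
      have hpos : (0 : ℚ) < X.card := by rw [hX]; positivity
      by_contra hcon
      push Not at hcon
      have := mul_lt_mul_of_pos_left hcon hpos
      linarith

/-- Bollobas' set-pair inequality (weighted form) -/
theorem set_pairs {α ι : Type} [DecidableEq α] (X : Finset α) (I : Finset ι) (A B : ι → Finset α)
    (hA : ∀ i ∈ I, A i ⊆ X) (hB : ∀ i ∈ I, B i ⊆ X) (h1 : ∀ i ∈ I, Disjoint (A i) (B i))
    (h2 : ∀ i ∈ I, ∀ j ∈ I, i ≠ j → ¬ Disjoint (A i) (B j)) :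
    ∑ i ∈ I, (1 : ℚ) / (((A i).card + (B i).card).choose (A i).card) ≤ 1 := by
  exact set_pairs_aux X.card X rfl I A B hA hB h1 h2

/-- a hypergraph with covering number `> p` and edges of size `r` contains a subhypergraph with at
most `choose (r+p) r` edges and covering number `> p` -/
theorem critical_general {n p r : ℕ} (E : Finset (Finset (Fin n))) (hE : ∀ e ∈ E, e.card = r)
    (h : ∀ C : Finset (Fin n), C.card ≤ p → ∃ e ∈ E, Disjoint e C) :
    ∃ E' ⊆ E, (∀ C : Finset (Fin n), C.card ≤ p → ∃ e ∈ E', Disjoint e C) ∧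
      (E'.biUnion id).card ≤ r * (r + p).choose r := by
  classical
  set P : Finset (Finset (Finset (Fin n))) := E.powerset.filter
    (fun F => ∀ C : Finset (Fin n), C.card ≤ p → ∃ e ∈ F, Disjoint e C) with hP
  have hne : P.Nonempty := ⟨E, by rw [hP, Finset.mem_filter]; exact ⟨Finset.mem_powerset_self E, h⟩⟩
  obtain ⟨E', hE', hmin⟩ := Finset.exists_min_image P Finset.card hne
  rw [hP, Finset.mem_filter, Finset.mem_powerset] at hE'
  refine ⟨E', hE'.1, hE'.2, ?_⟩
  have hex : ∀ e : Finset (Fin n), ∃ C : Finset (Fin n), e ∈ E' → C.card ≤ p ∧ Disjoint e C ∧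
      ∀ f ∈ E', f ≠ e → ¬ Disjoint f C := by
    intro e
    by_cases he : e ∈ E'
    · have hnot : E'.erase e ∉ P := by
        intro hmem
        have h3 := hmin _ hmem
        have h4 := Finset.card_erase_lt_of_mem he
        omega
      rw [hP, Finset.mem_filter, Finset.mem_powerset] at hnot
      push Not at hnot
      obtain ⟨C, hC, hC2⟩ := hnot ((Finset.erase_subset _ _).trans hE'.1)
      refine ⟨C, fun _ => ⟨hC, ?_, ?_⟩⟩
      · obtain ⟨e', he', hd⟩ := hE'.2 C hC
        by_cases heq : e' = e
        · rwa [← heq]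
        · exact absurd hd (hC2 e' (Finset.mem_erase.2 ⟨heq, he'⟩))
      · intro f hf hfe
        exact hC2 f (Finset.mem_erase.2 ⟨hfe, hf⟩)
    · exact ⟨∅, fun h' => absurd h' he⟩
  choose B hB using hex
  have hsp := set_pairs (Finset.univ : Finset (Fin n)) E' (fun e => e) B
    (fun i _ => Finset.subset_univ _) (fun i _ => Finset.subset_univ _)
    (fun i hi => (hB i hi).2.1) (fun i hi j hj hij => (hB j hj).2.2 i hi hij)
  have hcp : (0 : ℚ) < ((r + p).choose r : ℕ) := by
    exact_mod_cast Nat.choose_pos (Nat.le_add_right r p)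
  have hlow : (E'.card : ℚ) * (1 / ((r + p).choose r : ℕ)) ≤
      ∑ i ∈ E', (1 : ℚ) / ((i.card + (B i).card).choose i.card) := by
    rw [← nsmul_eq_mul, ← Finset.sum_const]
    refine Finset.sum_le_sum fun e he => ?_
    rw [hE e (hE'.1 he)]
    have h5 : (0 : ℚ) < ((r + (B e).card).choose r : ℕ) := by
      exact_mod_cast Nat.choose_pos (Nat.le_add_right r _)
    have h6 : (((r + (B e).card).choose r : ℕ) : ℚ) ≤ ((r + p).choose r : ℕ) := by
      exact_mod_cast Nat.choose_le_choose r (Nat.add_le_add_left (hB e he).1 r)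
    exact one_div_le_one_div_of_le h5 h6
  have hcard : E'.card ≤ (r + p).choose r := by
    have h7 : (E'.card : ℚ) * (1 / ((r + p).choose r : ℕ)) ≤ 1 := hlow.trans hsp
    rw [mul_one_div, div_le_one hcp] at h7
    exact_mod_cast h7
  refine (Finset.card_biUnion_le_card_mul E' id r (fun e he => (hE e (hE'.1 he)).le)).trans ?_
  rw [mul_comm]
  exact Nat.mul_le_mul_left r hcard

end Helper383.CovK4
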