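import Mathlib

set_option autoImplicit false

namespace Helper383.CovM0

open Finset

/-- `G` contains `j` pairwise disjoint cliques of size `a` -/
def HasCliques {V : Type} (G : SimpleGraph V) (a j : ℕ) : Prop :=
  ∃ Q : Fin j → Finset V, (∀ i, G.IsNClique a (Q i)) ∧ ∀ i i', i ≠ i' → Disjoint (Q i) (Q i')

theorem turan_missing_sum {k : ℕ} (hk : 1 ≤ k) (q : ℕ) :
    2 * ∑ i ∈ range (k * q), i / k + k * q = k * q ^ 2 := by
  induction q with
  | zero => simp
  | succ q ih =>
    have h1 : k * (q + 1) = k * q + k := by ring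
    have h2 : ∑ i ∈ range k, (k * q + i) / k = k * q := by
      rw [Finset.sum_congr rfl (g := fun _ => q)]
      · simp
      · intro i hi
        rw [Finset.mem_range] at hi
        rw [Nat.mul_add_div (by omega), Nat.div_eq_of_lt hi, add_zero]
    rw [h1, Finset.sum_range_add, h2]
    nlinarith

theorem turan_missing_sum2 {k : ℕ} (hk : 1 ≤ k) (n : ℕ) :
    2 * ∑ i ∈ range n, i / k + k * (n / k) = k * (n / k) ^ 2 + 2 * ((n % k) * (n / k)) := by
  have h0 : n = k * (n / k) + n % k := (Nat.div_add_mod n k).symm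
  generalize hq : n / k = q at h0 ⊢
  generalize hs : n % k = s at h0 ⊢
  have hsk : s < k := by rw [← hs]; exact Nat.mod_lt _ (by omega)
  have h2 : ∑ i ∈ range s, (k * q + i) / k = s * q := by
    rw [Finset.sum_congr rfl (g := fun _ => q)]
    · simp
    · intro i hi
      rw [Finset.mem_range] at hi
      rw [Nat.mul_add_div (by omega), Nat.div_eq_of_lt (by omega), add_zero]
  rw [h0, Finset.sum_range_add, h2]
  have := turan_missing_sum hk q
  nlinarith

/-- Turan's theorem, counting missing edges -/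
theorem turan_missing {k : ℕ} (hk : 1 ≤ k) (V : Type) [Fintype V] (G : SimpleGraph V)
    (h : G.CliqueFree (k + 1)) :
    G.edgeSet.ncard + ∑ i ∈ range (Fintype.card V), i / k ≤ (Fintype.card V).choose 2 := by
  classical
  have h1 := h.card_edgeFinset_le
  have h2 : G.edgeSet.ncard = G.edgeFinset.card := by
    rw [Set.ncard_eq_toFinset_card']
    rfl
  rw [h2]
  simp only at h1
  generalize hn : Fintype.card V = n at h1 ⊢
  have h3 := turan_missing_sum2 hk n
  have h0 : n = k * (n / k) + n % k := (Nat.div_add_mod n k).symm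
  have hsk : n % k < k := Nat.mod_lt _ (by omega)
  generalize hq : n / k = q at h0 h3
  generalize hs : n % k = s at h0 h1 h3 hsk
  generalize hE : G.edgeFinset.card = E at h1 ⊢
  generalize hS : ∑ i ∈ range n, i / k = S at h3 ⊢
  have h4 : n ^ 2 - s ^ 2 = k * (q * (k * q + 2 * s)) := by
    rw [h0]
    have : (k * q + s) ^ 2 = k * (q * (k * q + 2 * s)) + s ^ 2 := by ring
    rw [this, Nat.add_sub_cancel]
  have h5 : (n ^ 2 - s ^ 2) * (k - 1) / (2 * k) = q * (k * q + 2 * s) * (k - 1) / 2 := by
    rw [h4]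
    have : k * (q * (k * q + 2 * s)) * (k - 1) = k * (q * (k * q + 2 * s) * (k - 1)) := by ring
    rw [this, mul_comm 2 k, Nat.mul_div_mul_left _ _ (by omega)]
  rw [h5] at h1
  have h6 : 2 * (q * (k * q + 2 * s) * (k - 1) / 2) ≤ q * (k * q + 2 * s) * (k - 1) :=
    Nat.mul_div_le _ _
  have h7 : 2 * s.choose 2 = s * (s - 1) := by
    rw [Nat.choose_two_right]
    exact Nat.two_mul_div_two_of_even (Nat.even_mul_pred_self s)
  have h8 : 2 * n.choose 2 = n * (n - 1) := by
    rw [Nat.choose_two_right]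
    exact Nat.two_mul_div_two_of_even (Nat.even_mul_pred_self n)
  obtain ⟨k', rfl⟩ : ∃ k', k = k' + 1 := ⟨k - 1, by omega⟩
  simp only [Nat.add_sub_cancel] at h6
  have h9 : s * (s - 1) + s = s * s := by
    cases s with
    | zero => rfl
    | succ s => simp only [Nat.add_sub_cancel]; ring
  have h10 : n * (n - 1) + n = n * n := by
    cases n with
    | zero => rfl
    | succ s => simp only [Nat.add_sub_cancel]; ring
  have h11 : 2 * E ≤ q * ((k' + 1) * q + 2 * s) * k' + s * (s - 1) := by
    have : k' + 1 - 1 = k' := rfl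
    rw [this] at h1
    omega
  have h12 : n * n = ((k' + 1) * q + s) * ((k' + 1) * q + s) := by rw [← h0]
  suffices h13 : 2 * (E + S) + n + s + (k' + 1) * q ≤ 2 * n.choose 2 + n + s + (k' + 1) * q by omega
  calc 2 * (E + S) + n + s + (k' + 1) * q
      = 2 * E + (2 * S + (k' + 1) * q) + n + s := by ring
    _ ≤ (q * ((k' + 1) * q + 2 * s) * k' + s * (s - 1)) +
        ((k' + 1) * q ^ 2 + 2 * (s * q)) + n + s := by rw [h3]; gcongr
    _ = q * ((k' + 1) * q + 2 * s) * k' + (s * (s - 1) + s) + (k' + 1) * q ^ 2 + 2 * (s * q) + n := by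
        ring
    _ = q * ((k' + 1) * q + 2 * s) * k' + s * s + (k' + 1) * q ^ 2 + 2 * (s * q) + n := by rw [h9]
    _ = ((k' + 1) * q + s) * ((k' + 1) * q + s) + n := by ring
    _ = n * (n - 1) + n + n := by rw [← h12, h10]
    _ = 2 * n.choose 2 + n + n := by rw [h8]
    _ = 2 * n.choose 2 + n + s + (k' + 1) * q := by omega

end Helper383.CovM0
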