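import Mathlib

set_option autoImplicit false

namespace Helper383.CovMA

open Finset

/-- `G` contains `j` pairwise disjoint cliques of size `a` -/
def HasCliques {V : Type} (G : SimpleGraph V) (a j : ℕ) : Prop :=
  ∃ Q : Fin j → Finset V, (∀ i, G.IsNClique a (Q i)) ∧ ∀ i i', i ≠ i' → Disjoint (Q i) (Q i')

open Classical in
theorem greedy_clique_nb {V : Type} [Fintype V] (G : SimpleGraph V) (u : V) :
    (G.neighborSet u).ncard = (univ.filter (fun y => G.Adj u y)).card := by
  have h1 : G.neighborSet u = ((univ.filter (fun y => G.Adj u y) : Finset V) : Set V) := by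
    ext y
    simp
  rw [h1, Set.ncard_coe_finset]

theorem greedy_clique_arith {k k' q n N t c i : ℕ} (hk : k = k' + 1) (hi : i ≤ k')
    (ht : k * t ≤ n) (hc : c ≤ (q + 1) * (k + 1))
    (hv : k * n + k * ((q + 2) * (k + 1) + k) ≤ k * N + n) (hN : N ≤ 0 + c + i * (t + 1)) :
    False := by
  have h2 : i * (t + 1) ≤ k' * (t + 1) := Nat.mul_le_mul_right _ hi
  have h3 : k * (k' * (t + 1)) ≤ k' * n + k * k' := by
    have h4 : k' * (k * t) ≤ k' * n := Nat.mul_le_mul_left _ ht
    calc k * (k' * (t + 1)) = k' * (k * t) + k * k' := by ring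
      _ ≤ k' * n + k * k' := by omega
  have h5 : k * N ≤ k * ((q + 1) * (k + 1)) + (k' * n + k * k') := by
    have h6 : k * N ≤ k * ((q + 1) * (k + 1) + k' * (t + 1)) := by
      apply Nat.mul_le_mul_left
      omega
    rw [mul_add] at h6
    omega
  have h7 : k * n = k' * n + n := by rw [hk]; ring
  have h8 : k * ((q + 2) * (k + 1) + k) ≤ k * ((q + 1) * (k + 1) + k') := by
    have h9 : k * ((q + 1) * (k + 1) + k') = k * ((q + 1) * (k + 1)) + k * k' := by ring
    omega
  have h10 := Nat.le_of_mul_le_mul_left h8 (by omega)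
  have h11 : (q + 2) * (k + 1) = (q + 1) * (k + 1) + (k + 1) := by ring
  omega

open Classical in
theorem greedy_clique_ind {k q n : ℕ} (hk : 1 ≤ k) (V : Type) [Fintype V] (G : SimpleGraph V)
    (hn : Fintype.card V = n) (hdeg : ∀ u : V, n ≤ (G.neighborSet u).ncard + (n / k + 1)) (v : V)
    (hv : k * n + k * ((q + 2) * (k + 1) + k) ≤ k * (G.neighborSet v).ncard + n) (U : Finset V)
    (hU : U.card ≤ (q + 1) * (k + 1)) (i : ℕ) : i ≤ k →
    ∃ K : Finset V, G.IsNClique i K ∧ (∀ x ∈ K, G.Adj v x) ∧ Disjoint K U ∧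
      (G.neighborSet v).ncard ≤
        (univ.filter (fun y => G.Adj v y ∧ y ∉ U ∧ ∀ x ∈ K, G.Adj x y)).card + U.card +
          i * (n / k + 1) := by
  induction i with
  | zero =>
    intro _
    refine ⟨∅, ?_, by simp, by simp, ?_⟩
    · rw [SimpleGraph.isNClique_iff]
      simp
    · rw [greedy_clique_nb, zero_mul, add_zero]
      have h1 : univ.filter (fun y => G.Adj v y) ⊆
          univ.filter (fun y => G.Adj v y ∧ y ∉ U ∧ ∀ x ∈ (∅ : Finset V), G.Adj x y) ∪ U := by
        intro y hy
        rw [mem_filter] at hy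
        rw [mem_union, mem_filter]
        by_cases hyU : y ∈ U
        · exact Or.inr hyU
        · exact Or.inl ⟨mem_univ y, hy.2, hyU, by simp⟩
      exact (card_le_card h1).trans (card_union_le _ _)
  | succ i ih =>
    intro hik
    obtain ⟨K, hK, hKv, hKU, hcard⟩ := ih (by omega)
    obtain ⟨k', hk'⟩ : ∃ k', k = k' + 1 := ⟨k - 1, by omega⟩
    have hpos : 0 < (univ.filter (fun y => G.Adj v y ∧ y ∉ U ∧ ∀ x ∈ K, G.Adj x y)).card := by
      by_contra hcon
      have h0 : (univ.filter (fun y => G.Adj v y ∧ y ∉ U ∧ ∀ x ∈ K, G.Adj x y)).card = 0 := by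
        omega
      rw [h0] at hcard
      exact greedy_clique_arith hk' (by omega) (Nat.mul_div_le n k) hU hv hcard
    obtain ⟨u, hu⟩ := card_pos.1 hpos
    rw [mem_filter] at hu
    obtain ⟨_, huv, huU, huK⟩ := hu
    refine ⟨insert u K, hK.insert (fun b hb => (huK b hb).symm), ?_, ?_, ?_⟩
    · intro x hx
      rw [mem_insert] at hx
      rcases hx with rfl | hx
      · exact huv
      · exact hKv x hx
    · rw [disjoint_insert_left]
      exact ⟨huU, hKU⟩
    · have h1 : univ.filter (fun y => G.Adj v y ∧ y ∉ U ∧ ∀ x ∈ K, G.Adj x y) ⊆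
          univ.filter (fun y => G.Adj v y ∧ y ∉ U ∧ ∀ x ∈ insert u K, G.Adj x y) ∪
          univ.filter (fun y => ¬ G.Adj u y) := by
        intro y hy
        rw [mem_filter] at hy
        rw [mem_union, mem_filter, mem_filter]
        by_cases hyu : G.Adj u y
        · left
          refine ⟨mem_univ y, hy.2.1, hy.2.2.1, ?_⟩
          intro x hx
          rw [mem_insert] at hx
          rcases hx with rfl | hx
          · exact hyu
          · exact hy.2.2.2 x hx
        · exact Or.inr ⟨mem_univ y, hyu⟩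
      have h2 := (card_le_card h1).trans (card_union_le _ _)
      have h3 : (univ.filter (fun y => G.Adj u y)).card +
          (univ.filter (fun y => ¬ G.Adj u y)).card = n := by
        rw [← hn, ← card_univ]
        exact card_filter_add_card_filter_not _
      have h4 := hdeg u
      rw [greedy_clique_nb] at h4
      have h5 : (i + 1) * (n / k + 1) = i * (n / k + 1) + (n / k + 1) := by ring
      omega

/-- greedy choice of a `k`-clique in the neighbourhood of `v` outside `U` -/
theorem greedy_clique {k q n : ℕ} (hk : 1 ≤ k) (V : Type) [Fintype V] (G : SimpleGraph V)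
    (hn : Fintype.card V = n) (hdeg : ∀ u : V, n ≤ (G.neighborSet u).ncard + (n / k + 1)) (v : V)
    (hv : k * n + k * ((q + 2) * (k + 1) + k) ≤ k * (G.neighborSet v).ncard + n) (U : Finset V)
    (hU : U.card ≤ (q + 1) * (k + 1)) :
    ∃ K : Finset V, G.IsNClique k K ∧ (∀ x ∈ K, G.Adj v x) ∧ Disjoint K U := by
  obtain ⟨K, h1, h2, h3, _⟩ := greedy_clique_ind hk V G hn hdeg v hv U hU k le_rfl
  exact ⟨K, h1, h2, h3⟩

end Helper383.CovMA
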