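import Mathlib

set_option autoImplicit false

namespace Helper383.CovMB

open Finset

/-- `G` contains `j` pairwise disjoint cliques of size `a` -/
def HasCliques {V : Type} (G : SimpleGraph V) (a j : ℕ) : Prop :=
  ∃ Q : Fin j → Finset V, (∀ i, G.IsNClique a (Q i)) ∧ ∀ i i', i ≠ i' → Disjoint (Q i) (Q i')


theorem exists_W_29076 (k q : ℕ) (V : Type) [Fintype V] (G : SimpleGraph V)
    (hV : (q+1)*(k+1) ≤ Fintype.card V) (hnc : ¬ HasCliques G (k + 1) (q + 2)) :
    ∃ W : Finset V, W.card = (q+1)*(k+1) ∧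
      (G.comap (Subtype.val : {v // v ∉ W} → V)).CliqueFree (k+1) := by
  classical
  have hex : ∃ j, ¬ HasCliques G (k+1) j := ⟨_, hnc⟩
  have h0 : Nat.find hex ≠ 0 := by
    intro h
    have := Nat.find_spec hex
    rw [h] at this
    exact this ⟨fun i => i.elim0, fun i => i.elim0, fun i => i.elim0⟩
  obtain ⟨j, hj⟩ := Nat.exists_eq_succ_of_ne_zero h0
  have hle : j + 1 ≤ q + 2 := by
    have := Nat.find_min' hex hnc
    omega
  have hnj : ¬ HasCliques G (k+1) (j+1) := by
    have := Nat.find_spec hex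
    rwa [hj] at this
  have hyj : HasCliques G (k+1) j := by
    have := Nat.find_min hex (m := j) (by omega)
    exact not_not.mp this
  obtain ⟨Q, hQ, hdis⟩ := hyj
  have hU : (Finset.univ.biUnion Q).card ≤ (q+1)*(k+1) := by
    calc (Finset.univ.biUnion Q).card ≤ ∑ i, (Q i).card := Finset.card_biUnion_le
      _ = ∑ i : Fin j, (k+1) := Finset.sum_congr rfl (fun i _ => (hQ i).card_eq)
      _ = j * (k+1) := by simp
      _ ≤ (q+1)*(k+1) := Nat.mul_le_mul_right _ (by omega)
  obtain ⟨W, hUW, hW⟩ := Finset.exists_superset_card_eq hU hV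
  refine ⟨W, hW, ?_⟩
  intro s hs
  apply hnj
  have hsd : ∀ i, Disjoint (s.map (Function.Embedding.subtype _)) (Q i) := by
    intro i
    rw [Finset.disjoint_left]
    intro x hx hxQ
    rw [Finset.mem_map] at hx
    obtain ⟨y, hy, rfl⟩ := hx
    exact y.2 (hUW (Finset.mem_biUnion.mpr ⟨i, Finset.mem_univ _, hxQ⟩))
  refine ⟨Fin.cons (s.map (Function.Embedding.subtype _)) Q, ?_, ?_⟩
  · intro i
    refine Fin.cases ?_ ?_ i
    · rw [Fin.cons_zero, SimpleGraph.isNClique_iff]
      refine ⟨?_, by rw [Finset.card_map]; exact hs.card_eq⟩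
      intro x hx y hy hxy
      rw [Finset.mem_coe, Finset.mem_map] at hx hy
      obtain ⟨x, hx, rfl⟩ := hx
      obtain ⟨y, hy, rfl⟩ := hy
      have := hs.isClique hx hy (fun h => hxy (by rw [h]))
      exact this
    · intro i
      rw [Fin.cons_succ]
      exact hQ i
  · intro i i'
    refine Fin.cases ?_ (fun a => ?_) i
    · refine Fin.cases ?_ (fun b => ?_) i'
      · intro h; exact absurd rfl h
      · intro _
        rw [Fin.cons_zero, Fin.cons_succ]
        exact hsd b
    · refine Fin.cases ?_ (fun b => ?_) i'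
      · intro _
        rw [Fin.cons_zero, Fin.cons_succ]
        exact (hsd a).symm
      · intro h
        rw [Fin.cons_succ, Fin.cons_succ]
        exact hdis a b (fun hab => h (by rw [hab]))

theorem edge_le_29076 (V : Type) [Fintype V] (G : SimpleGraph V) (W : Finset V) :
    G.edgeSet.ncard ≤ (G.comap (Subtype.val : {v // v ∉ W} → V)).edgeSet.ncard +
      ∑ v ∈ W, (G.neighborSet v).ncard := by
  classical
  have hsub : G.edgeSet ⊆ (Sym2.map Subtype.val '' (G.comap (Subtype.val : {v // v ∉ W} → V)).edgeSet) ∪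
      ⋃ v ∈ W, (fun u => s(v,u)) '' (G.neighborSet v) := by
    intro e he
    induction e with
    | _ a b =>
    rw [SimpleGraph.mem_edgeSet] at he
    by_cases ha : a ∈ W
    · right
      simp only [Set.mem_iUnion]
      exact ⟨a, ha, b, he, rfl⟩
    by_cases hb : b ∈ W
    · right
      simp only [Set.mem_iUnion]
      exact ⟨b, hb, a, he.symm, Sym2.eq_swap⟩
    · left
      exact ⟨s(⟨a,ha⟩,⟨b,hb⟩), he, rfl⟩
  calc G.edgeSet.ncard ≤ _ := Set.ncard_le_ncard hsub (Set.toFinite _)
    _ ≤ _ := Set.ncard_union_le _ _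
    _ ≤ _ := by
      apply Nat.add_le_add
      · exact Set.ncard_image_le (Set.toFinite _)
      · refine (Finset.set_ncard_biUnion_le _ _).trans ?_
        exact Finset.sum_le_sum (fun v _ => Set.ncard_image_le (Set.toFinite _))

theorem sum_le_29076 (k q n : ℕ) (hk : 1 ≤ k) (hn : (q+1)*(k+1) ≤ n) :
    ∑ i ∈ range (n - (q + 1)), i / k ≤ ∑ i ∈ range (n - (q+1)*(k+1)), i / k + (q+1) * n := by
  have h1 : n - (q+1) = (n - (q+1)*(k+1)) + (q+1)*k := by
    have : (q+1)*(k+1) = (q+1)*k + (q+1) := by ring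
    omega
  rw [h1, Finset.sum_range_add]
  apply Nat.add_le_add_left
  -- k terms at a time
  have h2 : k * ∑ x ∈ range ((q + 1) * k), (n - (q + 1) * (k + 1) + x) / k ≤ k * ((q+1) * n) := by
    rw [Finset.mul_sum]
    calc ∑ x ∈ range ((q + 1) * k), k * ((n - (q + 1) * (k + 1) + x) / k)
        ≤ ∑ x ∈ range ((q + 1) * k), n := by
          apply Finset.sum_le_sum
          intro x hx
          rw [Finset.mem_range] at hx
          have := Nat.mul_div_le (n - (q + 1) * (k + 1) + x) k
          have h3 : (q+1)*(k+1) = (q+1)*k + (q+1) := by ring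
          omega
      _ = k * ((q+1) * n) := by
          rw [Finset.sum_const, Finset.card_range, smul_eq_mul]; ring
  exact Nat.le_of_mul_le_mul_left h2 hk

/-- if all degrees are large, there are no `q + 2` disjoint `(k+1)`-cliques and there are many edges,
then some vertex has very large degree -/
theorem exists_rich (k q : ℕ) (hk : 1 ≤ k)
    (turan : ∀ (V : Type) [Fintype V] (G : SimpleGraph V), G.CliqueFree (k + 1) →
      G.edgeSet.ncard + ∑ i ∈ range (Fintype.card V), i / k ≤ (Fintype.card V).choose 2) :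
    ∃ N : ℕ, ∀ n ≥ N, ∀ (V : Type) [Fintype V] (G : SimpleGraph V), Fintype.card V = n →
      ¬ HasCliques G (k + 1) (q + 2) →
      n.choose 2 < G.edgeSet.ncard + ∑ i ∈ range (n - (q + 1)), i / k →
      ∃ v : V, k * n + k * ((q + 2) * (k + 1) + k) ≤ k * (G.neighborSet v).ncard + n := by
  classical
  set w := (q+1)*(k+1) with hw
  set L := (q + 2) * (k + 1) + k with hL
  refine ⟨w * k * L + k * (w * (w+1)) + w + 1, ?_⟩
  intro n hn V _ G hVn hnc hE
  by_contra hcon
  push Not at hcon
  have hwn : w ≤ n := by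
    have : w * k * L + k * (w * (w+1)) + w + 1 ≤ n := hn
    omega
  obtain ⟨W, hWc, hWfree⟩ := exists_W_29076 k q V G (by rw [hVn]; exact hwn) hnc
  have h1 := turan _ _ hWfree
  have hc : Fintype.card {v // v ∉ W} = n - w := by
    rw [Fintype.card_subtype_compl, Fintype.card_coe, hVn, hWc]
  rw [hc] at h1
  have h2 := edge_le_29076 V G W
  have h3 := sum_le_29076 k q n hk hwn
  rw [← hw] at h3
  have h4 : k * ∑ v ∈ W, (G.neighborSet v).ncard + w * n ≤ w * (k * n + k * L) := by
    rw [Finset.mul_sum]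
    have h5 : ∑ v ∈ W, (k * (G.neighborSet v).ncard + n) ≤ ∑ v ∈ W, (k * n + k * L) :=
      Finset.sum_le_sum (fun v _ => (hcon v).le)
    rw [Finset.sum_add_distrib, Finset.sum_const, Finset.sum_const, hWc, smul_eq_mul, smul_eq_mul] at h5
    exact h5
  have h6 : 2 * n.choose 2 = n * (n - 1) := by
    rw [Nat.choose_two_right, Nat.mul_div_cancel' (Nat.even_mul_pred_self n).two_dvd]
  have h7 : 2 * (n - w).choose 2 = (n - w) * (n - w - 1) := by
    rw [Nat.choose_two_right, Nat.mul_div_cancel' (Nat.even_mul_pred_self (n-w)).two_dvd]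
  generalize G.edgeSet.ncard = e at *
  generalize (G.comap (Subtype.val : {v // v ∉ W} → V)).edgeSet.ncard = e' at *
  generalize ∑ v ∈ W, (G.neighborSet v).ncard = D at *
  generalize ∑ i ∈ range (n - (q + 1)), i / k = S at *
  generalize ∑ i ∈ range (n - w), i / k = S' at *
  generalize n.choose 2 = A at *
  generalize (n-w).choose 2 = B at *
  obtain ⟨m, rfl⟩ : ∃ m, n = w + m := ⟨n - w, by omega⟩
  have hm1 : w * k * L + k * (w * (w+1)) + 1 ≤ m := by omega
  rw [show w + m - w = m by omega] at h7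
  have hm0 : 1 ≤ m := by omega
  obtain ⟨p, rfl⟩ : ∃ p, m = p + 1 := ⟨m - 1, by omega⟩
  rw [show p + 1 - 1 = p by omega] at h7
  rw [show w + (p + 1) - 1 = w + p by omega] at h6
  -- in integers
  have hAB : 2 * A = 2 * B + w * (w + p) + (p+1) * w := by
    rw [h6, h7]; ring
  have h8 : k * e + k * S ≤ k * B + k * D + k * ((q+1) * (w + (p+1))) := by
    have h9 : e + S ≤ B + D + (q+1) * (w + (p+1)) := by omega
    calc k * e + k * S = k * (e + S) := by ring
      _ ≤ k * (B + D + (q+1) * (w + (p+1))) := Nat.mul_le_mul_left _ h9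
      _ = _ := by ring
  have h10 : k * A < k * e + k * S := by
    rw [← Nat.mul_add]
    exact Nat.mul_lt_mul_of_pos_left hE hk
  have hwk : w = (q+1) * k + (q+1) := by rw [hw]; ring
  have h11 : 2 * (k * A) = 2 * (k * B) + k * (w * (w + p)) + k * ((p+1) * w) := by
    calc 2 * (k * A) = k * (2 * A) := by ring
      _ = _ := by rw [hAB]; ring
  have h12 : w * (w + (p+1)) = (q+1) * k * (w + (p+1)) + (q+1) * (w + (p+1)) := by
    conv_lhs => rw [hwk]
    rw [← hwk]; ring
  have h13 : 2 * (k * D) + 2 * (w * (w + (p+1))) ≤ 2 * (w * (k * (w + (p+1)) + k * L)) := by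
    nlinarith [h4]
  have h14 : w + (p+1) ≤ (q+1) * (w + (p+1)) := Nat.le_mul_of_pos_left _ (Nat.succ_pos q)
  nlinarith [h8, h10, h11, h12, h13, hm1, h14]


end Helper383.CovMB

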