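import Mathlib

set_option autoImplicit false

namespace Helper383.CovMC

open Finset

/-- `G` contains `j` pairwise disjoint cliques of size `a` -/
def HasCliques {V : Type} (G : SimpleGraph V) (a j : ℕ) : Prop :=
  ∃ Q : Fin j → Finset V, (∀ i, G.IsNClique a (Q i)) ∧ ∀ i i', i ≠ i' → Disjoint (Q i) (Q i')

theorem h940_del {V : Type} [Fintype V] (G : SimpleGraph V) (v : V) :
    G.edgeSet.ncard ≤ (G.induce ({v}ᶜ : Set V)).edgeSet.ncard + (G.neighborSet v).ncard := by
  classical
  have h1 : G.edgeSet.ncard = G.edgeFinset.card := by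
    rw [← SimpleGraph.coe_edgeFinset, Set.ncard_coe_finset]
  have h2 : (G.induce ({v}ᶜ : Set V)).edgeSet.ncard = (G.induce ({v}ᶜ : Set V)).edgeFinset.card := by
    rw [← SimpleGraph.coe_edgeFinset, Set.ncard_coe_finset]
  have h3 : (G.neighborSet v).ncard = G.degree v := by
    rw [← SimpleGraph.card_neighborFinset_eq_degree, ← Set.ncard_coe_finset, SimpleGraph.coe_neighborFinset]
  rw [h1, h2, h3]
  have h4 := SimpleGraph.card_edgeFinset_induce_compl_singleton G v
  have h5 := SimpleGraph.card_edgeFinset_deleteIncidenceSet G v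
  rw [h5] at h4
  omega

theorem h940_cl {V : Type} (G : SimpleGraph V) (v : V) (a j : ℕ)
    (h : HasCliques (G.induce ({v}ᶜ : Set V)) a j) : HasCliques G a j := by
  obtain ⟨Q, h1, h2⟩ := h
  refine ⟨fun i => (Q i).map (Function.Embedding.subtype _), ?_, ?_⟩
  · intro i
    have h3 := (h1 i).map (f := Function.Embedding.subtype (· ∈ ({v}ᶜ : Set V)))
    refine h3.mono ?_
    exact SimpleGraph.map_comap_le _ _
  · intro i i' hii
    exact (Finset.disjoint_map _).2 (h2 i i' hii)

/-- removing vertices of small degree one at a time -/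
theorem peel (k q N₁ : ℕ) (hk : 1 ≤ k)
    (hA : ∀ n ≥ N₁, ∀ (V : Type) [Fintype V] (G : SimpleGraph V), Fintype.card V = n →
      ¬ HasCliques G (k + 1) (q + 2) →
      (∀ v : V, n ≤ (G.neighborSet v).ncard + (n / k + 1)) →
      G.edgeSet.ncard + ∑ i ∈ range (n - (q + 1)), i / k ≤ n.choose 2) :
    ∃ N : ℕ, ∀ n ≥ N, ∀ (V : Type) [Fintype V] (G : SimpleGraph V), Fintype.card V = n →
      ¬ HasCliques G (k + 1) (q + 2) →
      G.edgeSet.ncard + ∑ i ∈ range (n - (q + 1)), i / k ≤ n.choose 2 := by
  classical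
  obtain ⟨M, hM⟩ : ∃ M, M = max N₁ (q + 2) := ⟨_, rfl⟩
  have hM1 : N₁ ≤ M := by rw [hM]; exact le_max_left _ _
  have hM2 : q + 2 ≤ M := by rw [hM]; exact le_max_right _ _
  obtain ⟨B, hB⟩ : ∃ B, B = M.choose 2 + ∑ i ∈ range M, i / k := ⟨_, rfl⟩
  have key : ∀ d : ℕ, ∀ (V : Type) [Fintype V] (G : SimpleGraph V), Fintype.card V = M + d →
      ¬ HasCliques G (k + 1) (q + 2) →
      G.edgeSet.ncard + ∑ i ∈ range (M + d - (q + 1)), i / k ≤ (M + d).choose 2 + (B - d) := by
    intro d
    induction d with
    | zero =>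
      intro V _ G hV hG
      have h1 : G.edgeSet.ncard ≤ M.choose 2 := by
        have h1 : G.edgeSet.ncard = G.edgeFinset.card := by
          rw [← SimpleGraph.coe_edgeFinset, Set.ncard_coe_finset]
        rw [h1]
        have h2 := G.card_edgeFinset_le_card_choose_two
        rw [hV, Nat.add_zero] at h2
        exact h2
      have h2 : ∑ i ∈ range (M + 0 - (q + 1)), i / k ≤ ∑ i ∈ range M, i / k :=
        Finset.sum_le_sum_of_subset (Finset.range_subset_range.2 (by omega))
      have h3 : (M + 0).choose 2 = M.choose 2 := rfl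
      rw [h3]
      omega
    | succ d ih =>
      intro V _ G hV hG
      by_cases hdeg : ∀ v : V, M + (d + 1) ≤ (G.neighborSet v).ncard + ((M + (d + 1)) / k + 1)
      · have h1 := hA (M + (d + 1)) (by omega) V G hV hG hdeg
        omega
      · push Not at hdeg
        obtain ⟨v, hv⟩ := hdeg
        have hcard : Fintype.card ({v}ᶜ : Set V) = M + d := by
          rw [Fintype.card_compl_set, hV]
          simp
        have h1 := ih ({v}ᶜ : Set V) (G.induce ({v}ᶜ : Set V)) hcard
          (fun h => hG (h940_cl G v _ _ h))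
        have h2 := h940_del G v
        have h3 : ∑ i ∈ range (M + (d + 1) - (q + 1)), i / k
            = ∑ i ∈ range (M + d - (q + 1)), i / k + (M + d - (q + 1)) / k := by
          have h4 : M + (d + 1) - (q + 1) = (M + d - (q + 1)) + 1 := by omega
          rw [h4, Finset.sum_range_succ]
        have h5 : (M + d - (q + 1)) / k ≤ (M + (d + 1)) / k := Nat.div_le_div_right (by omega)
        have h6 : (M + (d + 1)).choose 2 = (M + d).choose 2 + (M + d) := by
          rw [← Nat.add_assoc, Nat.choose_succ_succ' (M + d) 1, Nat.choose_one_right]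
          ring
        rw [h3, h6]
        omega
  refine ⟨M + B, ?_⟩
  intro n hn V _ G hV hG
  have h1 := key (n - M) V G (by omega) hG
  have h2 : M + (n - M) = n := by omega
  have h3 : B - (n - M) = 0 := by omega
  rw [h2, h3] at h1
  omega

end Helper383.CovMC
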