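import Mathlib

set_option autoImplicit false

namespace Helper383.CovMD

open Finset

/-- `G` contains `j` pairwise disjoint cliques of size `a` -/
def HasCliques {V : Type} (G : SimpleGraph V) (a j : ℕ) : Prop :=
  ∃ Q : Fin j → Finset V, (∀ i, G.IsNClique a (Q i)) ∧ ∀ i i', i ≠ i' → Disjoint (Q i) (Q i')

/-- deleting a vertex of very large degree -/
theorem rich_step {k q n : ℕ} (hk : 1 ≤ k) (V : Type) [Fintype V] (G : SimpleGraph V)
    (hn : Fintype.card V = n) (v : V)
    (hrich : ∀ U : Finset V, U.card ≤ (q + 1) * (k + 1) →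
      ∃ K : Finset V, G.IsNClique k K ∧ (∀ x ∈ K, G.Adj v x) ∧ Disjoint K U)
    (hno : ¬ HasCliques G (k + 1) (q + 2))
    (IH : ∀ (W : Type) [Fintype W] (H : SimpleGraph W), Fintype.card W = n - 1 →
      ¬ HasCliques H (k + 1) (q + 1) →
      H.edgeSet.ncard + ∑ i ∈ range (n - 1 - q), i / k ≤ (n - 1).choose 2) :
    G.edgeSet.ncard + ∑ i ∈ range (n - (q + 1)), i / k ≤ n.choose 2 := by
  classical
  have hn1 : 1 ≤ n := by
    rw [← hn]; exact Fintype.card_pos_iff.mpr ⟨v⟩
  let W := {x : V // x ≠ v}
  let H : SimpleGraph W := G.comap (Subtype.val : W → V)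
  have hcW : Fintype.card W = n - 1 := by
    have := Fintype.card_subtype_compl (fun x : V => x = v)
    simp only [Fintype.card_subtype_eq] at this
    rw [← hn]
    exact this
  have hH : ¬ HasCliques H (k + 1) (q + 1) := by
    rintro ⟨Q, hQ, hd⟩
    apply hno
    let Q' : Fin (q + 1) → Finset V := fun i => (Q i).map (Function.Embedding.subtype _)
    have hQ' : ∀ i, G.IsNClique (k + 1) (Q' i) := by
      intro i
      have h1 := hQ i
      rw [SimpleGraph.isNClique_iff] at h1 ⊢
      refine ⟨?_, ?_⟩
      · intro x hx y hy hxy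
        simp only [Q', Finset.coe_map, Set.mem_image, Finset.mem_coe] at hx hy
        obtain ⟨x', hx', rfl⟩ := hx
        obtain ⟨y', hy', rfl⟩ := hy
        have hne : x' ≠ y' := by
          rintro rfl; exact hxy rfl
        have := h1.1 (Finset.mem_coe.mpr hx') (Finset.mem_coe.mpr hy') hne
        exact this
      · simp only [Q', Finset.card_map]
        exact h1.2
    have hd' : ∀ i i', i ≠ i' → Disjoint (Q' i) (Q' i') := by
      intro i i' hii
      simp only [Q']
      rw [Finset.disjoint_map]
      exact hd i i' hii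
    have hv' : ∀ i, v ∉ Q' i := by
      intro i hi
      simp only [Q', Finset.mem_map] at hi
      obtain ⟨x, _, hx⟩ := hi
      exact x.2 hx
    obtain ⟨K, hK, hKv, hKU⟩ := hrich (Finset.univ.biUnion Q') (by
      calc (Finset.univ.biUnion Q').card ≤ ∑ i : Fin (q + 1), (Q' i).card := Finset.card_biUnion_le
        _ = ∑ i : Fin (q + 1), (k + 1) := Finset.sum_congr rfl (fun i _ => (hQ' i).2)
        _ = (q + 1) * (k + 1) := by simp)
    have hKd : ∀ i, Disjoint (insert v K) (Q' i) := by
      intro i
      rw [Finset.disjoint_insert_left]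
      refine ⟨hv' i, ?_⟩
      rw [Finset.disjoint_left]
      intro x hx hxi
      exact (Finset.disjoint_left.mp hKU hx) (Finset.mem_biUnion.mpr ⟨i, Finset.mem_univ _, hxi⟩)
    have hKc : G.IsNClique (k + 1) (insert v K) := hK.insert hKv
    refine ⟨Fin.cons (insert v K) Q', ?_, ?_⟩
    · intro i
      refine Fin.cases ?_ (fun j => ?_) i
      · simpa using hKc
      · simpa using hQ' j
    · intro i i'
      refine Fin.cases ?_ (fun j => ?_) i
      · refine Fin.cases ?_ (fun j' => ?_) i'
        · intro h; exact absurd rfl h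
        · intro _; simpa using hKd j'
      · refine Fin.cases ?_ (fun j' => ?_) i'
        · intro _; simpa using (hKd j).symm
        · intro h
          simp only [Fin.cons_succ]
          exact hd' j j' (fun h' => h (by rw [h']))
  have hIH := IH W H hcW hH
  have hE : G.edgeSet.ncard ≤ H.edgeSet.ncard + (n - 1) := by
    have hsub : G.edgeSet ⊆ (Sym2.map (Subtype.val : W → V) '' H.edgeSet) ∪
        ((fun x : W => s(v, (x : V))) '' Set.univ) := by
      intro e
      induction e using Sym2.ind with
      | _ x y =>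
        intro he
        rw [SimpleGraph.mem_edgeSet] at he
        by_cases hx : x = v
        · right
          subst hx
          exact ⟨⟨y, he.ne.symm⟩, Set.mem_univ _, rfl⟩
        · by_cases hy : y = v
          · right
            subst hy
            exact ⟨⟨x, hx⟩, Set.mem_univ _, Sym2.eq_swap⟩
          · left
            refine ⟨s(⟨x, hx⟩, ⟨y, hy⟩), ?_, rfl⟩
            rw [SimpleGraph.mem_edgeSet]
            exact he
    calc G.edgeSet.ncard ≤ _ := Set.ncard_le_ncard hsub (Set.toFinite _)
      _ ≤ _ := Set.ncard_union_le _ _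
      _ ≤ H.edgeSet.ncard + (n - 1) := by
        refine add_le_add (Set.ncard_image_le (Set.toFinite _)) ?_
        refine le_trans (Set.ncard_image_le (Set.toFinite _)) ?_
        rw [Set.ncard_univ, Nat.card_eq_fintype_card, hcW]
  have hch : n.choose 2 = (n - 1).choose 2 + (n - 1) := by
    obtain ⟨m, rfl⟩ : ∃ m, n = m + 1 := ⟨n - 1, by omega⟩
    rw [Nat.choose_succ_succ' m 1]
    simp [add_comm]
  have hnn : n - (q + 1) = n - 1 - q := by omega
  rw [hnn, hch]
  omega

end Helper383.CovMD
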