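import Mathlib

set_option autoImplicit false

namespace Helper383.CovME1

open Finset

/-- `G` contains `j` pairwise disjoint cliques of size `a` -/
def HasCliques {V : Type} (G : SimpleGraph V) (a j : ℕ) : Prop :=
  ∃ Q : Fin j → Finset V, (∀ i, G.IsNClique a (Q i)) ∧ ∀ i i', i ≠ i' → Disjoint (Q i) (Q i')

theorem aux_sum (k n q : ℕ) : 2 * k * ∑ i ∈ range (n - q), i / k ≤ n * (n - 1) := by
  have h1 : ∑ i ∈ range (n - q), i / k ≤ ∑ i ∈ range n, i / k :=
    Finset.sum_le_sum_of_subset (Finset.range_mono (Nat.sub_le n q))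
  have h2 : k * ∑ i ∈ range n, i / k ≤ ∑ i ∈ range n, i := by
    rw [Finset.mul_sum]
    exact Finset.sum_le_sum fun i _ => Nat.mul_div_le i k
  have h3 := Finset.sum_range_id_mul_two n
  calc 2 * k * ∑ i ∈ range (n - q), i / k ≤ 2 * k * ∑ i ∈ range n, i / k :=
        Nat.mul_le_mul_left _ h1
    _ = (k * ∑ i ∈ range n, i / k) * 2 := by ring
    _ ≤ (∑ i ∈ range n, i) * 2 := Nat.mul_le_mul_right _ h2
    _ = n * (n - 1) := h3

/-- dense graphs contain many disjoint `k`-cliques -/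
theorem many_small (k m q : ℕ) (hk : 1 ≤ k)
    (turan1 : ∀ (n k : ℕ), 1 ≤ k → ∀ (m : ℕ) (G : SimpleGraph (Fin n)) [DecidableRel G.Adj],
      (∀ Q : Fin (m + 1) → Finset (Fin n), (∀ i, G.IsNClique (k + 1) (Q i)) →
        ∃ i j, i ≠ j ∧ ¬ Disjoint (Q i) (Q j)) →
      2 * k * G.edgeFinset.card ≤ (k - 1) * n ^ 2 + 2 * k * (m * (k + 1) * n)) :
    ∃ N : ℕ, ∀ n ≥ N, ∀ G : SimpleGraph (Fin n),
      n.choose 2 < G.edgeSet.ncard + ∑ i ∈ range (n - q), i / k → HasCliques G k m := by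
  classical
  rcases m with _ | m
  · exact ⟨0, fun n _ G _ => ⟨fun i => i.elim0, fun i => i.elim0, fun i => i.elim0⟩⟩
  obtain ⟨l, rfl⟩ : ∃ l, k = l + 1 := ⟨k - 1, by omega⟩
  rcases l with _ | l
  · refine ⟨m + 1, fun n hn G _ => ⟨fun i => {Fin.castLE hn i}, ?_, ?_⟩⟩
    · intro i
      rw [SimpleGraph.isNClique_iff]
      simp
    · intro i j hij
      rw [Finset.disjoint_singleton]
      intro h
      exact hij (Fin.castLE_injective hn h)
  refine ⟨(l + 1) ^ 2 + 2 * (l + 1) * (l + 2) ^ 2 * m + 1, fun n hn G hG => ?_⟩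
  by_contra hcon
  have h1 := turan1 n (l + 1) (by omega) m G (by
    intro Q hQ
    by_contra h
    push Not at h
    exact hcon ⟨Q, hQ, fun i j hij => h i j hij⟩)
  have h2 : G.edgeSet.ncard = G.edgeFinset.card := by
    rw [Set.ncard_eq_toFinset_card', SimpleGraph.edgeFinset]
  rw [h2] at hG
  have h3 := aux_sum (l + 1 + 1) n q
  have h4 : n.choose 2 * 2 = n * (n - 1) := by
    rw [Nat.choose_two_right]
    exact Nat.div_mul_cancel (Nat.even_mul_pred_self n).two_dvd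
  generalize (∑ i ∈ range (n - q), i / (l + 1 + 1)) = S at hG h3
  generalize G.edgeFinset.card = e at hG h1
  generalize n.choose 2 = c at hG h4
  obtain ⟨n', rfl⟩ : ∃ n', n = n' + 1 := ⟨n - 1, by omega⟩
  simp only [Nat.add_sub_cancel] at h1 h3 h4
  zify at *
  have h5 : (c : ℤ) + 1 ≤ e + S := by linarith
  have hn0 : (0 : ℤ) ≤ n' := Int.natCast_nonneg _
  have hl0 : (0 : ℤ) ≤ l := Int.natCast_nonneg _
  have hm0 : (0 : ℤ) ≤ m := Int.natCast_nonneg _
  -- (l+1) (n'+1) n' < 2 (l+2) e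
  have h6 : ((l : ℤ) + 1) * ((n' + 1) * n') < 2 * (l + 2) * e := by
    have h7 : (2 * (l + 2) : ℤ) * (c + 1) ≤ 2 * (l + 2) * (e + S) :=
      mul_le_mul_of_nonneg_left h5 (by positivity)
    nlinarith
  have h8 : ((l : ℤ) + 1) ^ 2 * ((n' + 1) * n') < 2 * (l + 1) * (l + 2) * e := by
    have := mul_lt_mul_of_pos_left h6 (by positivity : (0 : ℤ) < l + 1)
    nlinarith
  have h9 : 2 * ((l : ℤ) + 1) * (l + 2) * e ≤ (l + 2) * (l * (n' + 1) ^ 2
      + 2 * (l + 1) * (m * (l + 1 + 1) * (n' + 1))) := by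
    have := mul_le_mul_of_nonneg_left h1 (by positivity : (0 : ℤ) ≤ l + 2)
    nlinarith
  have h10 : ((n' : ℤ) + 1) * (n' + 1) <
      ((l + 1) ^ 2 + 2 * (l + 1) * (l + 2) ^ 2 * m) * (n' + 1) := by
    nlinarith
  have h11 : ((l + 1) ^ 2 + 2 * (l + 1) * (l + 2) ^ 2 * m) * ((n' : ℤ) + 1)
      ≤ (n' + 1) * (n' + 1) := by
    apply mul_le_mul_of_nonneg_right _ (by positivity)
    linarith
  linarith

end Helper383.CovME1
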