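import Mathlib

set_option autoImplicit false

namespace Helper383.CovME2

open Finset

/-- `G` contains `j` pairwise disjoint cliques of size `a` -/
def HasCliques {V : Type} (G : SimpleGraph V) (a j : ℕ) : Prop :=
  ∃ Q : Fin j → Finset V, (∀ i, G.IsNClique a (Q i)) ∧ ∀ i i', i ≠ i' → Disjoint (Q i) (Q i')

theorem combine_few {n N M : ℕ} (U : Finset (Fin n)) (hU : U.card ≤ M)
    (P : Fin N → Finset (Fin n)) (hP : ∀ i i', i ≠ i' → Disjoint (P i) (P i')) :
    (univ.filter fun j => ¬ Disjoint (P j) U).card ≤ M := by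
  classical
  rcases isEmpty_or_nonempty (Fin n) with hemp | hne
  · have : ∀ j, Disjoint (P j) U := by
      intro j
      rw [Finset.disjoint_left]
      intro x
      exact hemp.elim x
    simp [this]
  have hex : ∀ j ∈ univ.filter (fun j => ¬ Disjoint (P j) U), ∃ x, x ∈ P j ∧ x ∈ U := by
    intro j hj
    rw [mem_filter] at hj
    obtain ⟨x, hx1, hx2⟩ := Finset.not_disjoint_iff.mp hj.2
    exact ⟨x, hx1, hx2⟩
  choose! f hf using hex
  refine le_trans (Finset.card_le_card_of_injOn f (fun j hj => (hf j hj).2) ?_) hU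
  intro a ha b hb hab
  by_contra hne
  have h1 := (hf a ha).1
  have h2 := (hf b hb).1
  rw [hab] at h1
  exact (Finset.disjoint_left.mp (hP a b hne) h1) h2

/-- a vertex set of size `t` covered by `s - 1` disjoint cliques has no independent `s`-subset -/
theorem combine {n k q s t : ℕ} (G : SimpleGraph (Fin n)) (hs : q + 2 ≤ s)
    (ht : t = k * (s - 1) + q + 1) (h1 : HasCliques G (k + 1) (q + 1))
    (h2 : HasCliques G k ((s - 1 - (q + 1)) + (q + 1) * (k + 1))) :
    ∃ T : Finset (Fin n), T.card = t ∧ ∀ S ⊆ T, S.card = s → ∃ x ∈ S, ∃ y ∈ S, G.Adj x y := by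
  classical
  obtain ⟨Q, hQ1, hQ2⟩ := h1
  obtain ⟨P, hP1, hP2⟩ := h2
  obtain ⟨U, hUdef⟩ : ∃ U : Finset (Fin n), U = univ.biUnion Q := ⟨_, rfl⟩
  have hU : U.card = (q + 1) * (k + 1) := by
    rw [hUdef, Finset.card_biUnion (fun i _ j _ hij => hQ2 i j hij)]
    rw [Finset.sum_congr rfl (fun i _ => (hQ1 i).card_eq)]
    simp
  have hfew := combine_few U hU.le P hP2
  have hmany : s - 1 - (q + 1) ≤ (univ.filter fun j => Disjoint (P j) U).card := by
    have h3 := Finset.card_filter_add_card_filter_not (s := univ) (fun j => Disjoint (P j) U)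
    rw [Finset.card_univ, Fintype.card_fin] at h3
    omega
  obtain ⟨R, hR1, hR2⟩ := Finset.exists_subset_card_eq hmany
  have hRd : ∀ j ∈ R, Disjoint (P j) U := by
    intro j hj
    have := hR1 hj
    rw [mem_filter] at this
    exact this.2
  obtain ⟨I, hI⟩ : ∃ I : Finset (Fin (q + 1) ⊕ Fin ((s - 1 - (q + 1)) + (q + 1) * (k + 1))),
    I = univ.disjSum R := ⟨_, rfl⟩
  obtain ⟨C, hC⟩ : ∃ C : Fin (q + 1) ⊕ Fin ((s - 1 - (q + 1)) + (q + 1) * (k + 1)) →
    Finset (Fin n), C = Sum.elim Q P := ⟨_, rfl⟩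
  have hIcard : I.card = s - 1 := by
    rw [hI, Finset.card_disjSum, Finset.card_univ, Fintype.card_fin, hR2]
    omega
  have hCd : ∀ i ∈ I, ∀ j ∈ I, i ≠ j → Disjoint (C i) (C j) := by
    intro i hi j hj hij
    rw [hI, Finset.mem_disjSum] at hi hj
    rw [hC]
    rcases hi with ⟨a, -, rfl⟩ | ⟨a, ha, rfl⟩ <;> rcases hj with ⟨b, -, rfl⟩ | ⟨b, hb, rfl⟩
    · exact hQ2 a b (fun h => hij (by rw [h]))
    · refine (Disjoint.mono_right ?_ (hRd b hb)).symm
      rw [hUdef]
      exact Finset.subset_biUnion_of_mem Q (mem_univ a)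
    · refine Disjoint.mono_right ?_ (hRd a ha)
      rw [hUdef]
      exact Finset.subset_biUnion_of_mem Q (mem_univ b)
    · exact hP2 a b (fun h => hij (by rw [h]))
  refine ⟨I.biUnion C, ?_, ?_⟩
  · rw [Finset.card_biUnion hCd, hI, Finset.sum_disjSum, hC]
    simp only [Sum.elim_inl, Sum.elim_inr]
    rw [Finset.sum_congr rfl (fun i _ => (hQ1 i).card_eq),
      Finset.sum_congr rfl (fun i _ => (hP1 i).card_eq)]
    simp only [Finset.sum_const, Finset.card_univ, Fintype.card_fin, hR2, smul_eq_mul]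
    rw [ht]
    obtain ⟨w, hw⟩ : ∃ w, s - 1 = (q + 1) + w := ⟨s - 1 - (q + 1), by omega⟩
    rw [hw, Nat.add_sub_cancel_left]
    ring
  · intro S hS hScard
    have hIne : Nonempty (Fin (q + 1) ⊕ Fin ((s - 1 - (q + 1)) + (q + 1) * (k + 1))) :=
      ⟨Sum.inl 0⟩
    have hex : ∀ x ∈ S, ∃ i ∈ I, x ∈ C i := by
      intro x hx
      have := hS hx
      rw [Finset.mem_biUnion] at this
      exact this
    choose! f hf1 hf2 using hex
    obtain ⟨x, hx, y, hy, hxy, hfxy⟩ := Finset.exists_ne_map_eq_of_card_lt_of_maps_to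
      (s := S) (t := I) (by rw [hIcard, hScard]; omega) (f := f) hf1
    refine ⟨x, hx, y, hy, ?_⟩
    have h3 := hf2 x hx
    have h4 := hf2 y hy
    rw [← hfxy] at h4
    have hclq : ∀ i, ∃ a, G.IsNClique a (C i) := by
      intro i
      rw [hC]
      rcases i with i | i
      · exact ⟨_, hQ1 i⟩
      · exact ⟨_, hP1 i⟩
    obtain ⟨a, ha⟩ := hclq (f x)
    exact ha.isClique h3 h4 hxy

end Helper383.CovME2
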