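import Mathlib

set_option autoImplicit false

namespace Helper383.CovUB

open Finset

theorem upper_family_fiber (n q i k r : ℕ) (hk : 0 < k) (hr : 1 ≤ r)
    (G : Finset (Finset (Fin n)))
    (hG : ∀ B ∈ G, B.card = r ∧ (∀ y ∈ B, q ≤ (y : ℕ)) ∧
      (∀ x ∈ B, ∀ y ∈ B, ((x : ℕ) - q) % k = ((y : ℕ) - q) % k) ∧
      ∃ x ∈ B, (x : ℕ) = q + i ∧ ∀ y ∈ B, y ≤ x) :
    G.card ≤ (i / k).choose (r - 1) := by
  have hcount : ((range i).filter (fun j => j % k = i % k)).card = i / k := by
    have h1 := Nat.count_modEq_card i hk i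
    rw [Nat.count_eq_card_filter_range] at h1
    have h2 : (range i).filter (fun j => j % k = i % k) = (range i).filter (fun j => j ≡ i [MOD k]) := by
      rfl
    rw [h2, h1]
    simp
  rw [← hcount, ← card_powersetCard]
  apply card_le_card_of_injOn
    (fun B : Finset (Fin n) => (B.filter (fun y : Fin n => (y : ℕ) < q + i)).image (fun y : Fin n => (y : ℕ) - q))
  · intro B hB
    obtain ⟨hc, hq, hcl, x, hx, hxi, hmax⟩ := hG B hB
    rw [mem_coe, mem_powersetCard]
    refine ⟨?_, ?_⟩
    · intro j hj
      rw [mem_image] at hj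
      obtain ⟨y, hy, rfl⟩ := hj
      rw [mem_filter] at hy
      rw [mem_filter, mem_range]
      have h1 := hq y hy.1
      refine ⟨by omega, ?_⟩
      have h2 := hcl y hy.1 x hx
      rw [h2, hxi, Nat.add_sub_cancel_left]
    · rw [card_image_of_injOn]
      · have h3 : B.filter (fun y : Fin n => (y : ℕ) < q + i) = B.erase x := by
          ext y
          rw [mem_filter, mem_erase]
          constructor
          · rintro ⟨h1, h2⟩
            refine ⟨?_, h1⟩
            rintro rfl
            omega
          · rintro ⟨h1, h2⟩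
            refine ⟨h2, ?_⟩
            have h4 := hmax y h2
            have h5 : (y : ℕ) ≠ x := fun h => h1 (Fin.ext h)
            have h6 : (y : ℕ) ≤ x := h4
            omega
        rw [h3, card_erase_of_mem hx, hc]
      · intro a ha b hb hab
        rw [mem_coe, mem_filter] at ha hb
        have h1 := hq a ha.1
        have h2 := hq b hb.1
        simp only at hab
        apply Fin.ext
        omega
  · intro B hB B' hB' heq
    simp only at heq
    have key : ∀ (B B' : Finset (Fin n)), B ∈ G → B' ∈ G →
        (B.filter (fun y : Fin n => (y : ℕ) < q + i)).image (fun y : Fin n => (y : ℕ) - q) =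
        (B'.filter (fun y : Fin n => (y : ℕ) < q + i)).image (fun y : Fin n => (y : ℕ) - q) →
        B ⊆ B' := by
      intro B B' hB hB' heq y hy
      obtain ⟨_, hq, _, x, hx, hxi, hmax⟩ := hG B hB
      obtain ⟨_, hq', _, x', hx', hxi', _⟩ := hG B' hB'
      by_cases hlt : (y : ℕ) < q + i
      · have h1 : (y : ℕ) - q ∈ (B.filter (fun y : Fin n => (y : ℕ) < q + i)).image (fun y : Fin n => (y : ℕ) - q) :=
          mem_image.2 ⟨y, mem_filter.2 ⟨hy, hlt⟩, rfl⟩
        rw [heq, mem_image] at h1
        obtain ⟨z, hz, hzy⟩ := h1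
        rw [mem_filter] at hz
        have h2 := hq y hy
        have h3 := hq' z hz.1
        have h4 : z = y := Fin.ext (by omega)
        rw [← h4]
        exact hz.1
      · have h1 : (y : ℕ) ≤ x := hmax y hy
        have h2 : y = x' := Fin.ext (by omega)
        rw [h2]
        exact hx'
    exact Subset.antisymm (key B B' hB hB' heq) (key B' B hB' hB heq.symm)

/-- block construction with `(t-1) % (s-1)` deleted points and `(t-1) / (s-1)` blocks -/
theorem upper_family {n r s t : ℕ} (hr : 1 ≤ r) (hrs : r < s) (hst : s < t) :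
    ∃ A : Finset (Finset (Fin n)), (∀ S ∈ A, S.card = s) ∧
      (∀ T : Finset (Fin n), T.card = t → ∃ S ∈ A, S ⊆ T) ∧
      (((powersetCard r (univ : Finset (Fin n))).filter (fun B => ∃ S ∈ A, B ⊆ S)).card ≤
        ∑ i ∈ range (n - (t - 1) % (s - 1)), (i / ((t - 1) / (s - 1))).choose (r - 1)) := by
  classical
  set q := (t - 1) % (s - 1) with hqdef
  set k := (t - 1) / (s - 1) with hkdef
  have hs1 : 0 < s - 1 := by omega
  have hk : 0 < k := Nat.div_pos (by omega) hs1
  have hdiv : (s - 1) * k + q = t - 1 := Nat.div_add_mod (t - 1) (s - 1)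
  set P : Finset (Fin n) → Prop := fun S => (∀ y ∈ S, q ≤ (y : ℕ)) ∧
    (∀ x ∈ S, ∀ y ∈ S, ((x : ℕ) - q) % k = ((y : ℕ) - q) % k) with hP
  refine ⟨(powersetCard s (univ : Finset (Fin n))).filter P, ?_, ?_, ?_⟩
  · intro S hS
    rw [mem_filter, mem_powersetCard] at hS
    exact hS.1.2
  · intro T hT
    set T' := T.filter (fun x : Fin n => q ≤ (x : ℕ)) with hT'
    have hcard : k * (s - 1) < T'.card := by
      have h1 := card_filter_add_card_filter_not (s := T) (fun x : Fin n => q ≤ (x : ℕ))
      have h2 : (T.filter (fun x : Fin n => ¬ q ≤ (x : ℕ))).card ≤ q := by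
        have h3 : (T.filter (fun x : Fin n => ¬ q ≤ (x : ℕ))).card ≤ (range q).card := by
          apply card_le_card_of_injOn (fun x : Fin n => (x : ℕ))
          · intro x hx
            rw [mem_coe, mem_filter] at hx
            rw [mem_coe, mem_range]
            have h9 := hx.2
            show (x : ℕ) < q
            omega
          · intro a _ b _ hab
            exact Fin.ext hab
        rwa [card_range] at h3
      rw [← hT'] at h1
      rw [mul_comm]
      omega
    have hmaps : ∀ x ∈ T', ((x : ℕ) - q) % k ∈ range k := by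
      intro x _
      rw [mem_range]
      exact Nat.mod_lt _ hk
    obtain ⟨c, _, hc⟩ := exists_lt_card_fiber_of_mul_lt_card_of_maps_to (t := range k)
      (n := s - 1) hmaps (by rw [card_range]; exact hcard)
    have hc' : s ≤ (T'.filter (fun x : Fin n => ((x : ℕ) - q) % k = c)).card := by omega
    obtain ⟨S, hS, hSc⟩ := exists_subset_card_eq hc'
    refine ⟨S, ?_, ?_⟩
    · rw [mem_filter, mem_powersetCard]
      refine ⟨⟨subset_univ _, hSc⟩, ?_, ?_⟩
      · intro y hy
        have h1 := hS hy
        rw [mem_filter, mem_filter] at h1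
        exact h1.1.2
      · intro x hx y hy
        have h1 := hS hx
        have h2 := hS hy
        rw [mem_filter] at h1 h2
        rw [h1.2, h2.2]
    · intro x hx
      have h1 := hS hx
      rw [mem_filter, mem_filter] at h1
      exact h1.1.1
  · set Sh := (powersetCard r (univ : Finset (Fin n))).filter
      (fun B => ∃ S ∈ (powersetCard s (univ : Finset (Fin n))).filter P, B ⊆ S) with hSh
    have hB : ∀ B ∈ Sh, B.card = r ∧ P B := by
      intro B hB
      rw [hSh, mem_filter, mem_powersetCard] at hB
      obtain ⟨⟨_, h1⟩, S, hS, hBS⟩ := hB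
      rw [mem_filter] at hS
      exact ⟨h1, fun y hy => hS.2.1 y (hBS hy), fun x hx y hy => hS.2.2 x (hBS hx) y (hBS hy)⟩
    have hsub : Sh ⊆ (range (n - q)).biUnion (fun i => Sh.filter (fun B => ∃ x ∈ B, (x : ℕ) = q + i ∧ ∀ y ∈ B, y ≤ x)) := by
      intro B hBS
      obtain ⟨hc, hPB⟩ := hB B hBS
      have hne : B.Nonempty := card_pos.1 (by omega)
      rw [mem_biUnion]
      refine ⟨((B.max' hne : Fin n) : ℕ) - q, ?_, ?_⟩
      · rw [mem_range]
        have h1 := (B.max' hne).2
        have h2 := hPB.1 _ (B.max'_mem hne)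
        omega
      · rw [mem_filter]
        refine ⟨hBS, B.max' hne, B.max'_mem hne, ?_, fun y hy => B.le_max' y hy⟩
        have h2 := hPB.1 _ (B.max'_mem hne)
        omega
    refine (card_le_card hsub).trans (card_biUnion_le.trans ?_)
    apply sum_le_sum
    intro i _
    apply upper_family_fiber n q i k r hk hr
    intro B hBG
    rw [mem_filter] at hBG
    obtain ⟨hc, hPB⟩ := hB B hBG.1
    exact ⟨hc, hPB.1, hPB.2, hBG.2⟩

end Helper383.CovUB
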