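import Mathlib
import Pool.Agent.Helper383.Cov.K1
import Pool.Agent.Helper383.Cov.K3
import Pool.Agent.Helper383.Cov.K4
import Pool.Agent.Helper383.Cov.M0
import Pool.Agent.Helper383.Cov.MA
import Pool.Agent.Helper383.Cov.MB
import Pool.Agent.Helper383.Cov.MC
import Pool.Agent.Helper383.Cov.MD
import Pool.Agent.Helper383.Cov.ME1
import Pool.Agent.Helper383.Cov.ME2
import Pool.Agent.Helper383.Cov.UB
import Pool.Agent.Helper383.Cov.AV

set_option autoImplicit false

namespace Helper383.Cov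

open Finset

/-- `A` is a family of `s`-subsets of an `n`-element set such that every `t`-subset contains a member
of `A` -/
def IsCovering {n : ℕ} (s t : ℕ) (A : Finset (Finset (Fin n))) : Prop :=
  (∀ S ∈ A, S.card = s) ∧ ∀ T : Finset (Fin n), T.card = t → ∃ S ∈ A, S ⊆ T

/-- the lower `r`-shadow -/
def lowerShadow {n : ℕ} (r : ℕ) (A : Finset (Finset (Fin n))) : Finset (Finset (Fin n)) :=
  (powersetCard r univ).filter (fun B => ∃ S ∈ A, B ⊆ S)

/-- `f(n,r,s,t)` -/
noncomputable def f (n r s t : ℕ) : ℕ :=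
  sInf {m | ∃ A : Finset (Finset (Fin n)), IsCovering s t A ∧ (lowerShadow r A).card = m}

theorem f_le {n r s t : ℕ} {A : Finset (Finset (Fin n))} (h : IsCovering s t A) :
    f n r s t ≤ (lowerShadow r A).card := Nat.sInf_le ⟨A, h, rfl⟩

theorem isLeast {n r s t : ℕ} (h : s ≤ t) :
    IsLeast {m | ∃ A : Finset (Finset (Fin n)), IsCovering s t A ∧ (lowerShadow r A).card = m}
      (f n r s t) := by
  refine ⟨Nat.sInf_mem ⟨_, powersetCard s univ, ⟨fun S hS => (mem_powersetCard.1 hS).2, ?_⟩, rfl⟩,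
    fun m hm => Nat.sInf_le hm⟩
  intro T hT
  obtain ⟨S, hS1, hS2⟩ := exists_subset_card_eq (s := T) (n := s) (by omega)
  exact ⟨S, mem_powersetCard.2 ⟨subset_univ _, hS2⟩, hS1⟩

theorem le_f {n r s t c : ℕ} (h : s ≤ t)
    (hc : ∀ A : Finset (Finset (Fin n)), IsCovering s t A → c ≤ (lowerShadow r A).card) :
    c ≤ f n r s t := by
  obtain ⟨A, hA, h1⟩ := (isLeast (n := n) (r := r) h).1
  rw [← h1]; exact hc A hA

theorem mem_lowerShadow {n r : ℕ} {A : Finset (Finset (Fin n))} {B : Finset (Fin n)} :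
    B ∈ lowerShadow r A ↔ B.card = r ∧ ∃ S ∈ A, B ⊆ S := by
  unfold lowerShadow
  rw [mem_filter, mem_powersetCard]
  exact ⟨fun h => ⟨h.1.2, h.2⟩, fun h => ⟨⟨subset_univ _, h.1⟩, h.2⟩⟩

/-- upper bound for all parameters -/
theorem upper {n r s t : ℕ} (hr : 1 ≤ r) (hrs : r < s) (hst : s < t) :
    f n r s t ≤ ∑ i ∈ range (n - (t - 1) % (s - 1)), (i / ((t - 1) / (s - 1))).choose (r - 1) := by
  obtain ⟨A, h1, h2, h3⟩ := CovUB.upper_family (n := n) hr hrs hst
  exact (f_le ⟨h1, h2⟩).trans h3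

/-- averaging -/
theorem average {n r s t : ℕ} (hrs : r < s) (hst : s < t) (htn : t ≤ n) :
    n.choose r * s.choose r ≤ f n r s t * t.choose r := by
  obtain ⟨A, hA, h1⟩ := (isLeast (n := n) (r := r) hst.le).1
  rw [← h1]
  refine CovAV.averaging hrs.le hst.le htn A fun T hT => ?_
  obtain ⟨S, hS, hST⟩ := hA.2 T hT
  exact ⟨S, hS, hA.1 S hS, hST⟩

/-- if small subfamilies witness a large covering number, the shadow is large -/
theorem lower_of_critical {n r s t N : ℕ} (hst : s < t) (htn : t ≤ n) (hN : N ≤ t)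
    (crit : ∀ E : Finset (Finset (Fin n)), (∀ e ∈ E, e.card = r) →
      (∀ C : Finset (Fin n), C.card ≤ t - s → ∃ e ∈ E, Disjoint e C) →
      ∃ E' ⊆ E, (∀ C : Finset (Fin n), C.card ≤ t - s → ∃ e ∈ E', Disjoint e C) ∧
        (E'.biUnion id).card ≤ N) :
    (n - t + s).choose r ≤ f n r s t := by
  classical
  refine le_f hst.le fun A hA => ?_
  have key : ∃ C : Finset (Fin n), C.card ≤ t - s ∧
      ∀ e : Finset (Fin n), e.card = r → Disjoint e C → e ∈ lowerShadow r A := by
    by_contra hcon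
    push Not at hcon
    obtain ⟨E', hE'1, hE'2, hE'3⟩ := crit (powersetCard r univ \ lowerShadow r A)
      (fun e he => (mem_powersetCard.1 (mem_sdiff.1 he).1).2) (fun C hC => by
        obtain ⟨e, he1, he2, he3⟩ := hcon C hC
        exact ⟨e, mem_sdiff.2 ⟨mem_powersetCard.2 ⟨subset_univ _, he1⟩, he3⟩, he2⟩)
    obtain ⟨T, hT1, -, hT2⟩ := exists_subsuperset_card_eq (subset_univ (E'.biUnion id))
      (hE'3.trans hN) (by rw [card_univ, Fintype.card_fin]; exact htn)
    obtain ⟨S, hS, hST⟩ := hA.2 T hT2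
    obtain ⟨e, he1, he2⟩ := hE'2 (T \ S) (by rw [card_sdiff_of_subset hST, hT2, hA.1 S hS])
    have h1 := mem_sdiff.1 (hE'1 he1)
    apply h1.2
    rw [mem_lowerShadow]
    refine ⟨(mem_powersetCard.1 h1.1).2, S, hS, fun x hx => ?_⟩
    by_contra hxS
    exact disjoint_left.1 he2 hx (mem_sdiff.2 ⟨hT1 (mem_biUnion.2 ⟨e, he1, hx⟩), hxS⟩)
  obtain ⟨C, hC, hCe⟩ := key
  have h1 : powersetCard r (univ \ C) ⊆ lowerShadow r A := by
    intro e he
    rw [mem_powersetCard] at he
    exact hCe e he.2 (disjoint_left.2 fun x hx hxC => (mem_sdiff.1 (he.1 hx)).2 hxC)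
  refine le_trans ?_ (card_le_card h1)
  rw [card_powersetCard, card_sdiff_of_subset (subset_univ _), card_univ, Fintype.card_fin]
  exact Nat.choose_le_choose _ (by omega)

/-- deleting `t - s` points -/
theorem upper_small {n r s t : ℕ} (hst : s < t) (htn : t ≤ n) :
    f n r s t ≤ (n - t + s).choose r := by
  classical
  obtain ⟨C, -, hC⟩ := exists_subset_card_eq (s := (univ : Finset (Fin n))) (n := t - s)
    (by rw [card_univ, Fintype.card_fin]; omega)
  have h1 : IsCovering s t (powersetCard s (univ \ C)) := by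
    refine ⟨fun S hS => (mem_powersetCard.1 hS).2, fun T hT => ?_⟩
    have h2 := le_card_sdiff C T
    obtain ⟨S, hS1, hS2⟩ := exists_subset_card_eq (s := T \ C) (n := s) (by omega)
    refine ⟨S, mem_powersetCard.2 ⟨hS1.trans (sdiff_subset_sdiff (subset_univ _) (Subset.refl _)), hS2⟩,
      hS1.trans sdiff_subset⟩
  refine (f_le h1).trans ?_
  have h2 : lowerShadow r (powersetCard s (univ \ C)) ⊆ powersetCard r (univ \ C) := by
    intro B hB
    rw [mem_lowerShadow] at hB
    obtain ⟨hB, S, hS, hBS⟩ := hB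
    exact mem_powersetCard.2 ⟨hBS.trans (mem_powersetCard.1 hS).1, hB⟩
  refine (card_le_card h2).trans (le_of_eq ?_)
  rw [card_powersetCard, card_sdiff_of_subset (subset_univ _), card_univ, Fintype.card_fin, hC]
  congr 1
  omega

/-- `r = 2`, `t ≤ 2 s - 2` -/
theorem exact_two_small {n s t : ℕ} (hs : 3 ≤ s) (hst : s < t) (htn : t ≤ n) (h : t ≤ 2 * s - 2) :
    f n 2 s t = (n - t + s).choose 2 := by
  apply le_antisymm (upper_small hst htn)
  refine lower_of_critical (N := 2 * (t - s + 1)) hst htn (by omega) fun E hE hcov => ?_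
  exact CovK3.critical_two E hE hcov

/-- general `r`, `t` large in terms of `t - s` -/
theorem exact_general {n r s t : ℕ} (hst : s < t) (htn : t ≤ n)
    (h : r * (r + (t - s)).choose r ≤ t) :
    f n r s t = (n - t + s).choose r := by
  apply le_antisymm (upper_small hst htn)
  exact lower_of_critical hst htn h fun E hE hcov => CovK4.critical_general E hE hcov

open CovMB in
/-- Moon, Simonovits: graphs without `q + 1` disjoint `(k+1)`-cliques -/
theorem moon_simonovits (k : ℕ) (hk : 1 ≤ k) : ∀ q : ℕ, ∃ N : ℕ, ∀ n ≥ N,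
    ∀ (V : Type) [Fintype V] (G : SimpleGraph V), Fintype.card V = n →
      ¬ HasCliques G (k + 1) (q + 1) →
      G.edgeSet.ncard + ∑ i ∈ range (n - q), i / k ≤ n.choose 2 := by
  intro q
  induction q with
  | zero =>
    refine ⟨0, fun n _ V _ G hn hno => ?_⟩
    have hfree : G.CliqueFree (k + 1) := by
      intro K hK
      exact hno ⟨fun _ => K, fun _ => hK, fun i i' hii => absurd (Fin.ext (by have := i.isLt; have := i'.isLt; omega)) hii⟩
    have h := CovM0.turan_missing hk V G hfree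
    rw [hn] at h
    exact h
  | succ q ih =>
    obtain ⟨N₀, h₀⟩ := ih
    obtain ⟨N₁, h₁⟩ := CovMB.exists_rich k q hk (fun V _ G h => CovM0.turan_missing hk V G h)
    obtain ⟨N, hN⟩ := CovMC.peel k q (max N₁ (N₀ + 1)) hk (fun n hn V _ G hV hno hdeg => by
      by_contra hcon
      push Not at hcon
      have hn1 : N₁ ≤ n := (le_max_left _ _).trans hn
      have hn2 : N₀ + 1 ≤ n := (le_max_right _ _).trans hn
      obtain ⟨v, hv⟩ := h₁ n hn1 V G hV hno hcon
      have h := CovMD.rich_step hk V G hV v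
        (fun U hU => CovMA.greedy_clique hk V G hV hdeg v hv U hU) hno
        (fun W _ H hW hH => h₀ (n - 1) (by omega) W H hW hH)
      omega)
    exact ⟨N, fun n hn V _ G hV hno => hN n hn V G hV hno⟩

/-- the graph of pairs outside the shadow -/
theorem shadow_graph {n s t : ℕ} {A : Finset (Finset (Fin n))} (hA : IsCovering s t A) :
    ∃ G : SimpleGraph (Fin n), n.choose 2 ≤ (lowerShadow 2 A).card + G.edgeSet.ncard ∧
      ∀ T : Finset (Fin n), T.card = t → ∃ S ⊆ T, S.card = s ∧ ∀ x ∈ S, ∀ y ∈ S, ¬ G.Adj x y := by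
  classical
  let G : SimpleGraph (Fin n) :=
    { Adj := fun x y => x ≠ y ∧ ({x, y} : Finset (Fin n)) ∉ lowerShadow 2 A
      symm := ⟨fun x y h => ⟨h.1.symm, by rw [pair_comm]; exact h.2⟩⟩
      loopless := ⟨fun x h => h.1 rfl⟩ }
  refine ⟨G, ?_, ?_⟩
  · have h1 : powersetCard 2 (univ : Finset (Fin n)) ⊆
        lowerShadow 2 A ∪ G.edgeSet.toFinset.image Sym2.toFinset := by
      intro B hB
      rw [mem_union]
      by_cases hBA : B ∈ lowerShadow 2 A
      · exact Or.inl hBA
      · right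
        obtain ⟨x, y, hxy, rfl⟩ := card_eq_two.1 (mem_powersetCard.1 hB).2
        refine mem_image.2 ⟨s(x, y), ?_, ?_⟩
        · rw [Set.mem_toFinset, SimpleGraph.mem_edgeSet]
          exact ⟨hxy, hBA⟩
        · ext z; simp
    have h2 := card_le_card h1
    rw [card_powersetCard, card_univ, Fintype.card_fin] at h2
    refine h2.trans ((card_union_le _ _).trans (Nat.add_le_add_left ?_ _))
    rw [Set.ncard_eq_toFinset_card']
    exact card_image_le
  · intro T hT
    obtain ⟨S, hS, hST⟩ := hA.2 T hT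
    refine ⟨S, hST, hA.1 S hS, fun x hx y hy hadj => ?_⟩
    apply hadj.2
    rw [mem_lowerShadow]
    refine ⟨card_pair hadj.1, S, hS, ?_⟩
    intro z hz
    rw [mem_insert, mem_singleton] at hz
    rcases hz with rfl | rfl
    · exact hx
    · exact hy

/-- the exact value for `r = 2` and large `n` -/
theorem exact_two_large {s t : ℕ} (hs : 3 ≤ s) (hst : s < t) : ∃ N : ℕ, ∀ n ≥ N,
    f n 2 s t = ∑ i ∈ range (n - (t - 1) % (s - 1)), i / ((t - 1) / (s - 1)) := by
  set k := (t - 1) / (s - 1) with hk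
  set q := (t - 1) % (s - 1) with hq
  have hk1 : 1 ≤ k := (Nat.one_le_div_iff (by omega)).2 (by omega)
  have hqs : q < s - 1 := Nat.mod_lt _ (by omega)
  have htk : t = k * (s - 1) + q + 1 := by
    have := Nat.div_add_mod (t - 1) (s - 1)
    rw [← hk, ← hq, mul_comm] at this
    omega
  obtain ⟨N₁, h₁⟩ := moon_simonovits k hk1 q
  obtain ⟨N₂, h₂⟩ := CovME1.many_small k ((s - 1 - (q + 1)) + (q + 1) * (k + 1)) q hk1
    (fun n k hk m G _ h => CovK1.turan_disjoint hk m G h)
  refine ⟨max N₁ N₂, fun n hn => ?_⟩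
  have hn1 : N₁ ≤ n := (le_max_left _ _).trans hn
  have hn2 : N₂ ≤ n := (le_max_right _ _).trans hn
  apply le_antisymm
  · have h := upper (n := n) (r := 2) (by norm_num) (by omega) hst
    rw [← hk, ← hq] at h
    refine h.trans (le_of_eq (sum_congr rfl fun i _ => ?_))
    rw [show 2 - 1 = 1 from rfl, Nat.choose_one_right]
  · refine le_f hst.le fun A hA => ?_
    obtain ⟨G, hG1, hG2⟩ := shadow_graph hA
    by_contra hcon
    push Not at hcon
    have h3 : n.choose 2 < G.edgeSet.ncard + ∑ i ∈ range (n - q), i / k := by omega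
    have h4 : CovMB.HasCliques G (k + 1) (q + 1) := by
      by_contra hno
      have := h₁ n hn1 (Fin n) G (Fintype.card_fin n) hno
      omega
    have h5 := h₂ n hn2 G h3
    obtain ⟨T, hT1, hT2⟩ := CovME2.combine G (by omega) htk h4 h5
    obtain ⟨S, hS1, hS2, hS3⟩ := hG2 T hT1
    obtain ⟨x, hx, y, hy, hxy⟩ := hT2 S hS1 hS2
    exact hS3 x hx y hy hxy

end Helper383.Cov
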